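import Mathlib

/-!
# The tower of the binary partition function: basic identities

`X r k n` is the value at position `n` of level `k` of the tower generated by `r : ℕ → F`:
`X r k 0 = r k` and `X r k (n+1) = X r k n + X r (k+1) ((n+1)/2)`.
With `r = 1` every level is the sequence `a(n) = b₂(2n)`.
-/

namespace Pool.Agent.TH76.BinPart

open Finset

section Basic
variable {F : Type*} [Field F]

/-- tower values -/
def X (r : ℕ → F) : ℕ → ℕ → F
  | k, 0 => r k
  | k, n+1 => X r k n + X r (k+1) ((n+1)/2)
termination_by _ n => n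
decreasing_by
  all_goals omega

theorem X_zero (r : ℕ → F) (k : ℕ) : X r k 0 = r k := by
  rw [X]

theorem X_succ (r : ℕ → F) (k n : ℕ) : X r k (n+1) = X r k n + X r (k+1) ((n+1)/2) := by
  rw [X]

theorem X_odd (r : ℕ → F) (k u : ℕ) : X r k (2*u+1) = X r k (2*u) + X r (k+1) u := by
  rw [X_succ]; congr 2; omega

theorem X_even (r : ℕ → F) (k u : ℕ) (hu : 1 ≤ u) :
    X r k (2*u) = X r k (2*u-1) + X r (k+1) u := by
  obtain ⟨v, rfl⟩ : ∃ v, u = v + 1 := ⟨u-1, by omega⟩
  have h : 2*(v+1) = (2*v+1)+1 := by ring
  rw [h, X_succ]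
  congr 2
  omega

/-- locality: `X r k n` only depends on `r` on `[k, k+n]`. -/
theorem X_congr {r r' : ℕ → F} : ∀ (n k : ℕ), (∀ i, k ≤ i → i ≤ k + n → r i = r' i) →
    X r k n = X r' k n := by
  intro n
  induction n using Nat.strong_induction_on with
  | _ n ih =>
    intro k h
    cases n with
    | zero => rw [X_zero, X_zero]; exact h k le_rfl (by omega)
    | succ n =>
      rw [X_succ, X_succ]
      rw [ih n (by omega) k (fun i h1 h2 => h i h1 (by omega)),
        ih ((n+1)/2) (by omega) (k+1) (fun i h1 h2 => h i (by omega) (by omega))]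

/-- block lemma -/
theorem X_block (r r' : ℕ → F) (k J m : ℕ)
    (h : ∀ i, i ≤ J → X r (k+i) (2^(J-i)*m) = r' i) :
    ∀ n i, i ≤ J → n < 2^(J-i) → X r (k+i) (2^(J-i)*m + n) = X r' i n := by
  intro n
  induction n using Nat.strong_induction_on with
  | _ n ih =>
    intro i hi hn
    cases n with
    | zero => rw [X_zero, Nat.add_zero]; exact h i hi
    | succ n =>
      have hJ : 1 ≤ J - i := by
        by_contra hcon
        have : J - i = 0 := by omega
        rw [this] at hn
        simp at hn
      obtain ⟨q, hq⟩ : ∃ q, J - i = q + 1 := ⟨J-i-1, by omega⟩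
      have hq' : J - (i+1) = q := by omega
      rw [hq] at hn ⊢
      have e1 : 2^(q+1)*m + (n+1) = (2^(q+1)*m + n) + 1 := by ring
      rw [e1, X_succ, X_succ]
      have ih1 := ih n (by omega) i hi (by rw [hq]; omega)
      rw [hq] at ih1
      rw [ih1]
      have hpow : 2^(q+1) = 2 * 2^q := by ring
      have e2 : (2^(q+1)*m + n + 1)/2 = 2^q*m + (n+1)/2 := by
        rw [hpow, mul_assoc]; omega
      rw [e2]
      have ih2 := ih ((n+1)/2) (by omega) (i+1) (by omega) (by rw [hq']; omega)
      rw [hq'] at ih2
      rw [← ih2]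
      congr 2

theorem X_add (r s : ℕ → F) : ∀ (n k : ℕ), X (fun j => r j + s j) k n = X r k n + X s k n := by
  intro n
  induction n using Nat.strong_induction_on with
  | _ n ih =>
    intro k
    cases n with
    | zero => simp [X_zero]
    | succ n =>
      rw [X_succ, X_succ, X_succ, ih n (by omega), ih ((n+1)/2) (by omega)]
      ring

theorem X_smul (c : F) (r : ℕ → F) : ∀ (n k : ℕ), X (fun j => c * r j) k n = c * X r k n := by
  intro n
  induction n using Nat.strong_induction_on with
  | _ n ih =>
    intro k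
    cases n with
    | zero => simp [X_zero]
    | succ n =>
      rw [X_succ, X_succ, ih n (by omega), ih ((n+1)/2) (by omega)]
      ring

theorem X_zero_fun (k n : ℕ) : X (fun _ => (0:F)) k n = 0 := by
  have := X_smul (0:F) (fun _ => (0:F)) n k
  simpa using this

theorem X_sum {ι : Type*} (s : Finset ι) (v : ι → ℕ → F) (k n : ℕ) :
    X (fun j => ∑ i ∈ s, v i j) k n = ∑ i ∈ s, X (v i) k n := by
  classical
  induction s using Finset.induction_on with
  | empty => simp [X_zero_fun]
  | insert a s ha ih =>
    simp only [Finset.sum_insert ha]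
    rw [X_add, ih]

theorem X_lin {ι : Type*} (s : Finset ι) (e : ι → F) (v : ι → ℕ → F) (k n : ℕ) :
    X (fun j => ∑ i ∈ s, e i * v i j) k n = ∑ i ∈ s, e i * X (v i) k n := by
  rw [X_sum]
  exact Finset.sum_congr rfl (fun i _ => X_smul _ _ _ _)

/-- shift of levels -/
theorem X_shift (r : ℕ → F) (s : ℕ) : ∀ (n k : ℕ), X (fun j => r (s + j)) k n = X r (s + k) n := by
  intro n
  induction n using Nat.strong_induction_on with
  | _ n ih =>
    intro k
    cases n with
    | zero => simp [X_zero]
    | succ n =>
      rw [X_succ, X_succ, ih n (by omega), ih ((n+1)/2) (by omega)]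
      rfl

/-- the binary partition sequence `a(n) = b₂(2n)` in `F` -/
def aa (F : Type*) [Field F] (n : ℕ) : F := X (fun _ => (1:F)) 0 n

theorem X_one (k n : ℕ) : X (fun _ => (1:F)) k n = aa F n := by
  have := X_shift (fun _ => (1:F)) k n 0
  rw [aa]
  rw [show (fun _ : ℕ => (1:F)) = (fun j => (fun _ : ℕ => (1:F)) (k + j)) from rfl] 
  rw [this]
  rfl

theorem X_const (c : F) (k n : ℕ) : X (fun _ => c) k n = c * aa F n := by
  have := X_smul c (fun _ => (1:F)) n k
  simp only [mul_one] at this
  rw [this, X_one]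

theorem aa_zero : aa F 0 = 1 := by rw [aa, X_zero]

theorem aa_succ (n : ℕ) : aa F (n+1) = aa F n + aa F ((n+1)/2) := by
  conv_lhs => rw [aa, X_succ]
  rw [X_one, X_one]

theorem aa_even (u : ℕ) (hu : 1 ≤ u) : aa F (2*u) = aa F (2*u-1) + aa F u := by
  have := X_even (fun _ => (1:F)) 0 u hu
  rw [X_one, X_one, X_one] at this
  exact this

/-- the tower of `(c,0,0,...)` at level zero is constant -/
theorem X_delta (n : ℕ) (c : F) : X (fun j => if j = 0 then c else 0) 0 n = c := by
  induction n with
  | zero => simp [X_zero]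
  | succ n ih =>
    rw [X_succ, ih]
    have : X (fun j => if j = 0 then c else 0) (0+1) ((n+1)/2) = X (fun _ => (0:F)) (0+1) ((n+1)/2) := by
      apply X_congr
      intro i h1 _
      rw [if_neg (by omega)]
    rw [this, X_zero_fun, add_zero]

theorem X_delta' (n k : ℕ) (c : F) (hk : 1 ≤ k) : X (fun j => if j = 0 then c else 0) k n = 0 := by
  have : X (fun j => if j = 0 then c else 0) k n = X (fun _ => (0:F)) k n := by
    apply X_congr
    intro i h1 _
    rw [if_neg (by omega)]
  rw [this, X_zero_fun]

end Basic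

end Pool.Agent.TH76.BinPart
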