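import Mathlib
import Pool.Agent.TH76.BinPart.Basic

/-!
# The binary partition function and its recurrences
-/

namespace Pool.Agent.TH76.BinPart

open Finset

set_option linter.unusedSectionVars false

/-- binary multisets with sum `n` -/
def SS (n : ℕ) : Set (Multiset ℕ) := {s | (∀ x ∈ s, ∃ k, x = 2^k) ∧ s.sum = n}

/-- the number of binary partitions of `n`: partitions of `n` all of whose parts are powers
of two -/
noncomputable def b2 (n : ℕ) : ℕ := Nat.card {π : Nat.Partition n // ∀ x ∈ π.parts, ∃ k, x = 2^k}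

theorem b2_eq (n : ℕ) : b2 n = (SS n).ncard := by
  rw [b2, ← Nat.card_coe_set_eq]
  apply Nat.card_congr
  refine ⟨fun π => ⟨π.1.parts, π.2, π.1.parts_sum⟩, fun s => ⟨⟨s.1, ?_, s.2.2⟩, s.2.1⟩, ?_, ?_⟩
  · intro i hi
    obtain ⟨k, hk⟩ := s.2.1 i hi
    rw [hk]; positivity
  · intro π; rfl
  · intro s; rfl

theorem SS_finite (n : ℕ) : (SS n).Finite := by
  have : SS n ⊆ Set.range (fun π : Nat.Partition n => π.parts) := by
    intro s hs
    refine ⟨⟨s, ?_, hs.2⟩, rfl⟩
    intro i hi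
    obtain ⟨k, hk⟩ := hs.1 i hi
    rw [hk]; positivity
  exact (Set.finite_range _).subset this

theorem SS_zero : SS 0 = {0} := by
  ext s
  constructor
  · rintro ⟨h1, h2⟩
    rw [Set.mem_singleton_iff]
    by_contra hne
    obtain ⟨x, hx⟩ := Multiset.exists_mem_of_ne_zero hne
    obtain ⟨k, hk⟩ := h1 x hx
    have h3 := Multiset.single_le_sum (fun y _ => Nat.zero_le y) x hx
    have h4 : 0 < 2^k := by positivity
    omega
  · intro h
    rw [Set.mem_singleton_iff] at h
    subst h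
    exact ⟨by simp, by simp⟩

theorem cons_mem {n : ℕ} {s : Multiset ℕ} (hs : s ∈ SS n) : (1 ::ₘ s) ∈ SS (n+1) := by
  refine ⟨?_, ?_⟩
  · intro x hx
    rw [Multiset.mem_cons] at hx
    rcases hx with rfl | hx
    · exact ⟨0, by simp⟩
    · exact hs.1 x hx
  · rw [Multiset.sum_cons, hs.2]; ring

theorem of_one_mem {n : ℕ} {s : Multiset ℕ} (hs : s ∈ SS (n+1)) (h1 : 1 ∈ s) :
    ∃ s', s' ∈ SS n ∧ 1 ::ₘ s' = s := by
  obtain ⟨s', rfl⟩ := Multiset.exists_cons_of_mem h1
  refine ⟨s', ⟨fun x hx => hs.1 x (Multiset.mem_cons_of_mem hx), ?_⟩, rfl⟩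
  have := hs.2
  rw [Multiset.sum_cons] at this
  omega

theorem exists_half {s : Multiset ℕ} (hs : ∀ x ∈ s, ∃ k, x = 2^k) (h1 : 1 ∉ s) :
    ∃ s' : Multiset ℕ, (∀ x ∈ s', ∃ k, x = 2^k) ∧ s'.map (2 * ·) = s := by
  refine ⟨s.map (· / 2), ?_, ?_⟩
  · intro x hx
    rw [Multiset.mem_map] at hx
    obtain ⟨y, hy, rfl⟩ := hx
    obtain ⟨k, hk⟩ := hs y hy
    cases k with
    | zero => rw [pow_zero] at hk; subst hk; exact absurd hy h1
    | succ k => exact ⟨k, by rw [hk, pow_succ]; omega⟩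
  · rw [Multiset.map_map]
    conv_rhs => rw [← Multiset.map_id s]
    apply Multiset.map_congr rfl
    intro y hy
    obtain ⟨k, hk⟩ := hs y hy
    cases k with
    | zero => rw [pow_zero] at hk; subst hk; exact absurd hy h1
    | succ k =>
      simp only [Function.comp_apply, id]
      rw [hk, pow_succ]; omega

theorem sum_map_two (s : Multiset ℕ) : (s.map (2 * ·)).sum = 2 * s.sum := by
  induction s using Multiset.induction_on with
  | empty => simp
  | cons a s ih => simp only [Multiset.map_cons, Multiset.sum_cons, ih]; ring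

theorem SS_odd (n : ℕ) : SS (2*n+1) = (fun s => 1 ::ₘ s) '' SS (2*n) := by
  ext s
  constructor
  · intro hs
    by_cases h1 : 1 ∈ s
    · obtain ⟨s', hs', h⟩ := of_one_mem hs h1
      exact ⟨s', hs', h⟩
    · exfalso
      obtain ⟨s', _, rfl⟩ := exists_half hs.1 h1
      have := hs.2
      rw [sum_map_two] at this
      omega
  · rintro ⟨s', hs', rfl⟩
    exact cons_mem hs'

theorem SS_even (n : ℕ) : SS (2*n+2) =
    (fun s => 1 ::ₘ s) '' SS (2*n+1) ∪ (fun s : Multiset ℕ => s.map (2 * ·)) '' SS (n+1) := by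
  ext s
  constructor
  · intro hs
    by_cases h1 : 1 ∈ s
    · obtain ⟨s', hs', h⟩ := of_one_mem hs h1
      exact Or.inl ⟨s', hs', h⟩
    · right
      obtain ⟨s', hs', rfl⟩ := exists_half hs.1 h1
      refine ⟨s', ⟨hs', ?_⟩, rfl⟩
      have := hs.2
      rw [sum_map_two] at this
      omega
  · rintro (⟨s', hs', rfl⟩ | ⟨s', hs', rfl⟩)
    · exact cons_mem hs'
    · refine ⟨?_, ?_⟩
      · intro x hx
        rw [Multiset.mem_map] at hx
        obtain ⟨y, hy, rfl⟩ := hx
        obtain ⟨k, hk⟩ := hs'.1 y hy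
        exact ⟨k+1, by rw [hk, pow_succ]; ring⟩
      · rw [sum_map_two, hs'.2]; ring

theorem cons_inj : Function.Injective (fun s : Multiset ℕ => (1:ℕ) ::ₘ s) := by
  intro s t h
  exact (Multiset.cons_inj_right 1).mp h

theorem map_inj : Function.Injective (fun s : Multiset ℕ => s.map (2 * ·)) := by
  apply Multiset.map_injective
  intro a b h
  have : 2*a = 2*b := h
  omega

theorem b2_zero : b2 0 = 1 := by rw [b2_eq, SS_zero, Set.ncard_singleton]

theorem b2_odd (n : ℕ) : b2 (2*n+1) = b2 (2*n) := by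
  rw [b2_eq, b2_eq, SS_odd, Set.ncard_image_of_injective _ cons_inj]

theorem b2_even (n : ℕ) : b2 (2*n+2) = b2 (2*n+1) + b2 (n+1) := by
  have hdisj : Disjoint ((fun s : Multiset ℕ => 1 ::ₘ s) '' SS (2*n+1))
      ((fun s : Multiset ℕ => s.map (2 * ·)) '' SS (n+1)) := by
    rw [Set.disjoint_left]
    rintro _ ⟨s, _, rfl⟩ ⟨t, _, h⟩
    have h1 : (1:ℕ) ∈ t.map (2 * ·) := by
      have : t.map (2 * ·) = 1 ::ₘ s := h
      rw [this]
      exact Multiset.mem_cons_self 1 s
    rw [Multiset.mem_map] at h1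
    obtain ⟨y, _, hy⟩ := h1
    omega
  rw [b2_eq, b2_eq, b2_eq, SS_even,
    Set.ncard_union_eq hdisj ((SS_finite _).image _) ((SS_finite _).image _),
    Set.ncard_image_of_injective _ cons_inj, Set.ncard_image_of_injective _ map_inj]

/-- `a(n) = b₂(2n)` -/
noncomputable def an (n : ℕ) : ℕ := b2 (2*n)

theorem an_half (m : ℕ) : b2 m = an (m/2) := by
  rcases Nat.even_or_odd m with ⟨q, hq⟩ | ⟨q, hq⟩
  · rw [an]; congr 1; omega
  · rw [hq, b2_odd, an]; congr 1; omega

theorem an_zero : an 0 = 1 := b2_zero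

theorem an_succ (n : ℕ) : an (n+1) = an n + an ((n+1)/2) := by
  have h1 : an (n+1) = b2 (2*n+2) := by rw [an]; congr 1
  rw [h1, b2_even, b2_odd, an_half (n+1)]
  rfl

theorem an_cast {F : Type*} [Field F] : ∀ n, ((an n : ℕ) : F) = aa F n := by
  intro n
  induction n using Nat.strong_induction_on with
  | _ n ih =>
    cases n with
    | zero => rw [an_zero, aa_zero]; norm_num
    | succ n =>
      rw [an_succ, aa_succ, Nat.cast_add, ih n (by omega), ih ((n+1)/2) (by omega)]

theorem an_even_of_pos : ∀ n, 1 ≤ n → an n % 2 = 0 := by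
  intro n
  induction n using Nat.strong_induction_on with
  | _ n ih =>
    intro hn
    obtain ⟨m, rfl⟩ : ∃ m, n = m + 1 := ⟨n-1, by omega⟩
    rw [an_succ]
    rcases Nat.eq_zero_or_pos m with rfl | hm
    · norm_num [an_zero]
    · have h1 := ih m (by omega) hm
      have h2 := ih ((m+1)/2) (by omega) (by omega)
      omega

theorem an_odd_mod_four : ∀ m, an (2*m+1) % 4 = 2 := by
  intro m
  induction m with
  | zero =>
    have := an_succ 0
    rw [an_zero] at this
    norm_num [an_zero] at this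
    rw [show 2*0+1 = 1 by norm_num, this]
  | succ m ih =>
    have h1 := an_succ (2*m+1)
    have h2 := an_succ (2*m+2)
    rw [show (2*m+1+1)/2 = m+1 by omega] at h1
    rw [show (2*m+2+1)/2 = m+1 by omega] at h2
    rw [show 2*m+1+1 = 2*m+2 by ring] at h1
    rw [show 2*(m+1)+1 = 2*m+2+1 by ring, h2, h1]
    have h3 := an_even_of_pos (m+1) (by omega)
    omega

theorem four_dvd (n : ℕ) (hn : n % 4 = 2) : 4 ∣ an n := by
  obtain ⟨c, rfl⟩ : ∃ c, n = (2*(2*c)+1)+1 := ⟨n/4, by omega⟩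
  rw [an_succ, show (2*(2*c)+1+1)/2 = 2*c+1 by omega]
  have h1 := an_odd_mod_four (2*c)
  have h2 := an_odd_mod_four c
  omega

end Pool.Agent.TH76.BinPart
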