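import Mathlib

/-!
# The combinatorial lemma
-/

namespace Pool.Agent.TH76.BinPart

open Finset

set_option linter.unusedSectionVars false

section Comb
variable {F : Type*} [Field F]

/-- unit vectors -/
abbrev ee (F : Type*) [Field F] (k : ℕ) : ℕ → F := Pi.single k 1

theorem sum_ee (k i0 : ℕ) (g : ℕ → F) (h : i0 < k) : ∑ l ∈ range k, ee F i0 l * g l = g i0 := by
  rw [Finset.sum_eq_single i0]
  · simp [ee]
  · intro b _ hb
    simp [ee, Pi.single_eq_of_ne hb]
  · intro hn
    exact absurd (Finset.mem_range.mpr h) hn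

structure CombHyp (𝓖 : ℕ → Set (ℕ → F)) (γ : ℕ → ℕ → F) : Prop where
  supp : ∀ n c, c ∈ 𝓖 n → ∀ i, n < i → c i = 0
  h1 : ∀ n c, c ∈ 𝓖 n → c ∈ 𝓖 (n+1)
  h2 : ∀ n c, c ∈ 𝓖 n →
    (fun i => c i + (∑ l ∈ range (n+1), c l * γ (n+1) l) * ee F (n+1) i) ∈ 𝓖 (n+1)
  h3 : ∀ n, ee F n ∈ 𝓖 n
  hne : ∀ k, 1 ≤ k → ∃ i, i < k ∧ γ k i ≠ 0

theorem CombHyp.mono {𝓖 : ℕ → Set (ℕ → F)} {γ : ℕ → ℕ → F} (h : CombHyp 𝓖 γ) {n n' : ℕ}
    (hn : n ≤ n') {c : ℕ → F} (hc : c ∈ 𝓖 n) : c ∈ 𝓖 n' := by
  obtain ⟨t, rfl⟩ := Nat.exists_eq_add_of_le hn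
  clear hn
  induction t with
  | zero => exact hc
  | succ t ih => exact h.h1 _ _ ih

theorem CombHyp.ext' {𝓖 : ℕ → Set (ℕ → F)} {γ : ℕ → ℕ → F} (h : CombHyp 𝓖 γ) {n k : ℕ}
    (hn : n < k) {c : ℕ → F} (hc : c ∈ 𝓖 n) :
    (fun i => c i + (∑ l ∈ range k, c l * γ k l) * ee F k i) ∈ 𝓖 k := by
  obtain ⟨k', rfl⟩ : ∃ k', k = k' + 1 := ⟨k-1, by omega⟩
  exact h.h2 k' c (h.mono (by omega) hc)

/-- option (A) -/
def OptA (𝓖 : ℕ → Set (ℕ → F)) (m : ℕ) : Prop :=
  ∃ n, ∃ y : ℕ → ℕ → F, ∀ a b, a < b → b ≤ m →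
    ∃ t : F, t ≠ 0 ∧ (fun i => t * (y b i - y a i)) ∈ 𝓖 n

/-- option (B) -/
def OptB (𝓖 : ℕ → Set (ℕ → F)) (m : ℕ) : Prop :=
  ∃ n, ∃ x : ℕ → F, ∃ f : ℕ → ℕ, ∃ τ ρ : F, StrictMono f ∧ τ ≠ 0 ∧ ρ ≠ 0 ∧ f (2*m) ≤ n ∧
    ∀ κ : ℕ → ℕ, (∀ a, κ a = 2*a ∨ κ a = 2*a+1) →
    (fun i => x i + ∑ a ∈ range m, τ * ρ^a * ee F (f (κ a)) i) ∈ 𝓖 n

theorem comb_caseII {𝓖 : ℕ → Set (ℕ → F)} {γ : ℕ → ℕ → F} (h : CombHyp 𝓖 γ)
    (hfin : ∀ i, {k | γ k i ≠ 0}.Finite) (m : ℕ) : OptA 𝓖 m := by
  classical
  have hpar : ∀ k, ∃ i, 1 ≤ k → (i < k ∧ γ k i ≠ 0 ∧ ∀ i', i' < i → γ k i' = 0) := by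
    intro k
    by_cases hk : 1 ≤ k
    · have hex := h.hne k hk
      refine ⟨Nat.find hex, fun _ => ⟨(Nat.find_spec hex).1, (Nat.find_spec hex).2, ?_⟩⟩
      intro i' hi'
      have h1 := Nat.find_min hex hi'
      have h2 := (Nat.find_spec hex).1
      by_contra hcon
      exact h1 ⟨by omega, hcon⟩
    · exact ⟨0, fun h => absurd h hk⟩
  choose par hpar using hpar
  let Lev : ℕ → Set ℕ := fun d => Nat.rec {0} (fun _ S => {k | 1 ≤ k ∧ par k ∈ S}) d
  have hLev0 : Lev 0 = {0} := rfl
  have hLevS : ∀ d, Lev (d+1) = {k | 1 ≤ k ∧ par k ∈ Lev d} := fun d => rfl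
  have hLfin : ∀ d, (Lev d).Finite := by
    intro d
    induction d with
    | zero => rw [hLev0]; exact Set.finite_singleton 0
    | succ d ih =>
      rw [hLevS]
      apply (ih.biUnion (fun i _ => hfin i)).subset
      rintro k ⟨hk, hkp⟩
      simp only [Set.mem_iUnion]
      exact ⟨par k, hkp, (hpar k hk).2.1⟩
  have hcover : ∀ k, ∃ d, k ∈ Lev d := by
    intro k
    induction k using Nat.strong_induction_on with
    | _ k ih =>
      rcases Nat.eq_zero_or_pos k with rfl | hk
      · exact ⟨0, rfl⟩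
      · obtain ⟨d, hd⟩ := ih (par k) (hpar k hk).1
        exact ⟨d+1, hk, hd⟩
  have hne : (Lev m).Nonempty := by
    by_contra hcon
    rw [Set.not_nonempty_iff_eq_empty] at hcon
    have hemp : ∀ j, Lev (m+j) = ∅ := by
      intro j
      induction j with
      | zero => exact hcon
      | succ j ih =>
        rw [← Nat.add_assoc, hLevS, ih]
        ext k
        simp
    have hsub : (Set.univ : Set ℕ) ⊆ ⋃ d ∈ range m, Lev d := by
      intro k _
      obtain ⟨d, hd⟩ := hcover k
      rcases Nat.lt_or_ge d m with hlt | hge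
      · simp only [Set.mem_iUnion, Finset.mem_range]
        exact ⟨d, hlt, hd⟩
      · obtain ⟨j, rfl⟩ := Nat.exists_eq_add_of_le hge
        rw [hemp j] at hd
        exact absurd hd (Set.notMem_empty k)
    have : (⋃ d ∈ range m, Lev d).Finite :=
      (Finset.finite_toSet (range m)).biUnion (fun d _ => hLfin d)
    exact Set.infinite_univ (this.subset hsub)
  have key : ∀ d k, k ∈ Lev d → ∃ (y : ℕ → ℕ → F) (T : F), T ≠ 0 ∧
      (∀ a b, a < b → b ≤ d+1 → ∃ t : F, t ≠ 0 ∧ (fun i => t * (y b i - y a i)) ∈ 𝓖 k) ∧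
      (∀ a, a ≤ d → y (d+1) k - y a k = T) := by
    intro d
    induction d with
    | zero =>
      intro k hk
      rw [hLev0] at hk
      have hk0 : k = 0 := hk
      subst hk0
      refine ⟨fun a => if a = 0 then 0 else ee F 0, 1, one_ne_zero, ?_, ?_⟩
      · intro a b hab hb
        have ha0 : a = 0 := by omega
        have hb1 : b = 1 := by omega
        subst ha0 hb1
        refine ⟨1, one_ne_zero, ?_⟩
        have : (fun i => (1:F) * ((if (1:ℕ) = 0 then (0 : ℕ → F) else ee F 0) i
            - (if (0:ℕ) = 0 then (0 : ℕ → F) else ee F 0) i)) = ee F 0 := by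
          funext i
          simp
        rw [this]
        exact h.h3 0
      · intro a ha
        have : a = 0 := by omega
        subst this
        simp [ee]
    | succ d ih =>
      intro k' hk'
      rw [hLevS] at hk'
      obtain ⟨hk1, hkp⟩ := hk'
      obtain ⟨hpk, hγ, hγ0⟩ := hpar k' hk1
      set k := par k' with hk
      obtain ⟨y, T, hT, hgood, hval⟩ := ih k hkp
      set T' : F := T * γ k' k with hT'
      have hT'0 : T' ≠ 0 := mul_ne_zero hT hγ
      -- pairing
      have hpair : ∀ c ∈ 𝓖 k, ∑ l ∈ range k', c l * γ k' l = c k * γ k' k := by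
        intro c hc
        rw [Finset.sum_eq_single k]
        · intro b _ hb
          rcases lt_or_gt_of_ne hb with hlt | hgt
          · rw [hγ0 b hlt, mul_zero]
          · rw [h.supp k c hc b hgt, zero_mul]
        · intro hn
          exact absurd (Finset.mem_range.mpr hpk) hn
      refine ⟨fun a => if a = d+2 then (fun i => y (d+1) i + T' * ee F k' i) else y a, T', hT'0, ?_, ?_⟩
      · intro a b hab hb
        rcases Nat.lt_or_ge b (d+2) with hlt | hge
        · obtain ⟨t, ht, hg⟩ := hgood a b hab (by omega)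
          refine ⟨t, ht, ?_⟩
          simp only
          rw [if_neg (by omega), if_neg (by omega)]
          exact h.mono (by omega) hg
        · have hbe : b = d+2 := by omega
          subst hbe
          simp only [if_true]
          rcases Nat.lt_or_ge a (d+1) with hla | hga
          · -- a ≤ d
            obtain ⟨t, ht, hg⟩ := hgood a (d+1) hla le_rfl
            refine ⟨t, ht, ?_⟩
            rw [if_neg (by omega)]
            have h5 := h.ext' hpk hg
            rw [hpair _ hg] at h5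
            rw [hval a (by omega)] at h5
            have : (fun i => t * (y (d+1) i + T' * ee F k' i - y a i))
                = (fun i => t * (y (d+1) i - y a i) + t * T * γ k' k * ee F k' i) := by
              funext i
              rw [hT']; ring
            rw [this]
            exact h5
          · have hae : a = d+1 := by omega
            subst hae
            rw [if_neg (by omega)]
            refine ⟨1/T', div_ne_zero one_ne_zero hT'0, ?_⟩
            have : (fun i => 1/T' * (y (d+1) i + T' * ee F k' i - y (d+1) i)) = ee F k' := by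
              funext i
              field_simp
              ring
            rw [this]
            exact h.h3 k'
      · intro a ha
        simp only [if_true]
        rw [if_neg (by omega)]
        -- all y's have the same coefficient at k'
        have hcoef : y (d+1) k' = y a k' := by
          rcases Nat.lt_or_ge a (d+1) with hla | hga
          · obtain ⟨t, ht, hg⟩ := hgood a (d+1) hla le_rfl
            have h5 := h.supp k _ hg k' hpk
            rcases mul_eq_zero.mp h5 with h6 | h6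
            · exact absurd h6 ht
            · exact sub_eq_zero.mp h6
          · have : a = d+1 := by omega
            rw [this]
        rw [hcoef]
        simp [ee]
  obtain ⟨k, hk⟩ := hne
  obtain ⟨y, T, hT, hgood, _⟩ := key m k hk
  exact ⟨k, y, fun a b hab hb => hgood a b hab (by omega)⟩

theorem comb_caseI [Finite F] {𝓖 : ℕ → Set (ℕ → F)} {γ : ℕ → ℕ → F} (h : CombHyp 𝓖 γ)
    (i0 : ℕ) (hinf : {k | γ k i0 ≠ 0}.Infinite) (m : ℕ) : OptA 𝓖 m ∨ OptB 𝓖 m := by
  classical
  have hNB : (Filter.cofinite ⊓ Filter.principal {k | γ k i0 ≠ 0}).NeBot :=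
    Filter.cofinite_inf_principal_neBot_iff.mpr hinf
  let U : Ultrafilter ℕ := Ultrafilter.of (Filter.cofinite ⊓ Filter.principal {k | γ k i0 ≠ 0})
  have hU : (U : Filter ℕ) ≤ Filter.cofinite ⊓ Filter.principal {k | γ k i0 ≠ 0} :=
    Ultrafilter.of_le _
  have hUc : (U : Filter ℕ) ≤ Filter.cofinite := hU.trans inf_le_left
  have hUK : ∀ᶠ k in (U : Filter ℕ), γ k i0 ≠ 0 := by
    have : {k | γ k i0 ≠ 0} ∈ Filter.cofinite ⊓ Filter.principal {k | γ k i0 ≠ 0} :=
      Filter.mem_inf_of_right (Filter.mem_principal_self _)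
    exact hU this
  have hUgt : ∀ i : ℕ, ∀ᶠ k in (U : Filter ℕ), i < k := by
    intro i
    apply hUc
    rw [Filter.mem_cofinite]
    apply (Set.finite_Iic i).subset
    intro k hk
    simp only [Set.mem_compl_iff, Set.mem_ofPred_eq, not_lt] at hk
    exact hk
  have hlim : ∀ g : ℕ → F, ∃ c : F, ∀ᶠ k in (U : Filter ℕ), g k = c := by
    intro g
    have : ∀ᶠ k in (U : Filter ℕ), ∃ c : F, g k = c := Filter.Eventually.of_forall (fun k => ⟨g k, rfl⟩)
    exact Ultrafilter.eventually_exists_iff.mp this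
  choose D hD using fun l => hlim (fun k => γ k l)
  obtain ⟨Ds, hDs⟩ := hlim D
  set T : F := D i0 with hT
  have hT0 : T ≠ 0 := by
    obtain ⟨k, hk1, hk2⟩ := (hUK.and (hD i0)).exists
    rw [hT, ← hk2]; exact hk1
  obtain ⟨f, hfP, hfr⟩ := exists_seq_of_forall_finset_exists
    (fun y => D y = Ds ∧ γ y i0 = T ∧ i0 < y) (fun x y => x < y ∧ γ y x = Ds) (by
      intro s hs
      have hall : ∀ᶠ y in (U : Filter ℕ), ∀ x ∈ s, x < y ∧ γ y x = Ds := by
        rw [Filter.eventually_all_finset]
        intro x hx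
        have h5 := hD x
        rw [(hs x hx).1] at h5
        exact (hUgt x).and h5
      obtain ⟨y, ⟨h1, h2, h3⟩, h4⟩ := ((hDs.and ((hD i0).and (hUgt i0))).and hall).exists
      exact ⟨y, ⟨h1, h2, h3⟩, h4⟩)
  have hfmono : StrictMono f := by
    intro a b hab
    exact (hfr a b hab).1
  have hi0f : ∀ b, i0 < f b := fun b => (hfP b).2.2
  set ρ : F := 1 + Ds with hρ
  by_cases hρ0 : ρ = 0
  · left
    have hDs1 : Ds = -1 := by linear_combination hρ0
    refine ⟨f m, fun a => ee F (f a), ?_⟩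
    intro a b hab hb
    refine ⟨-1, by norm_num, ?_⟩
    have h5 := h.ext' (hfmono hab) (h.h3 (f a))
    rw [sum_ee (f b) (f a) (γ (f b)) (hfmono hab), (hfr a b hab).2, hDs1] at h5
    have : (fun i => -1 * (ee F (f b) i - ee F (f a) i))
        = (fun i => ee F (f a) i + -1 * ee F (f b) i) := by
      funext i; ring
    rw [this]
    exact h.mono (hfmono.monotone hb) h5
  · right
    refine ⟨f (2*m), ee F i0, f, T, ρ, hfmono, hT0, hρ0, le_rfl, ?_⟩
    intro κ hκ
    have hpair : ∀ M b, (∀ a, a < M → κ a < b) →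
        ∑ l ∈ range (f b), (ee F i0 l + ∑ a ∈ range M, T * ρ^a * ee F (f (κ a)) l) * γ (f b) l
          = T * ρ^M := by
      intro M
      induction M with
      | zero =>
        intro b _
        simp only [Finset.range_zero, Finset.sum_empty, add_zero, pow_zero, mul_one]
        rw [sum_ee (f b) i0 (γ (f b)) (hi0f b)]
        exact (hfP b).2.1
      | succ M ih =>
        intro b hb
        have h5 := ih b (fun a ha => hb a (by omega))
        have h6 : ∑ l ∈ range (f b), (ee F i0 l + ∑ a ∈ range (M+1), T * ρ^a * ee F (f (κ a)) l)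
              * γ (f b) l
            = ∑ l ∈ range (f b), (ee F i0 l + ∑ a ∈ range M, T * ρ^a * ee F (f (κ a)) l) * γ (f b) l
              + T * ρ^M * ∑ l ∈ range (f b), ee F (f (κ M)) l * γ (f b) l := by
          rw [Finset.mul_sum, ← Finset.sum_add_distrib]
          apply Finset.sum_congr rfl
          intro l _
          rw [Finset.sum_range_succ]
          ring
        have hlt : κ M < b := hb M (by omega)
        rw [h6, h5, sum_ee (f b) (f (κ M)) (γ (f b)) (hfmono hlt), (hfr _ _ hlt).2, pow_succ, hρ]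
        ring
    have hgood : ∀ M, ∃ s, s < f (2*M) ∧
        (fun i => ee F i0 i + ∑ a ∈ range M, T * ρ^a * ee F (f (κ a)) i) ∈ 𝓖 s := by
      intro M
      induction M with
      | zero =>
        refine ⟨i0, hi0f _, ?_⟩
        simp only [Finset.range_zero, Finset.sum_empty, add_zero]
        exact h.h3 i0
      | succ M ih =>
        obtain ⟨s, hs, hg⟩ := ih
        have hκM : 2*M ≤ κ M := by rcases hκ M with h | h <;> omega
        have hκM' : κ M < 2*(M+1) := by rcases hκ M with h | h <;> omega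
        refine ⟨f (κ M), hfmono hκM', ?_⟩
        have hs' : s < f (κ M) := lt_of_lt_of_le hs (hfmono.monotone hκM)
        have h5 := h.ext' hs' hg
        rw [hpair M (κ M) (fun a ha => by rcases hκ a with h | h <;> omega)] at h5
        have : (fun i => ee F i0 i + ∑ a ∈ range (M+1), T * ρ^a * ee F (f (κ a)) i)
            = (fun i => (ee F i0 i + ∑ a ∈ range M, T * ρ^a * ee F (f (κ a)) i)
              + T * ρ^M * ee F (f (κ M)) i) := by
          funext i
          rw [Finset.sum_range_succ]; ring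
        rw [this]
        exact h5
    obtain ⟨s, hs, hg⟩ := hgood m
    exact h.mono hs.le hg

theorem comb [Finite F] {𝓖 : ℕ → Set (ℕ → F)} {γ : ℕ → ℕ → F} (h : CombHyp 𝓖 γ) (m : ℕ) :
    OptA 𝓖 m ∨ OptB 𝓖 m := by
  by_cases hfin : ∀ i, {k | γ k i ≠ 0}.Finite
  · exact Or.inl (comb_caseII h hfin m)
  · push Not at hfin
    obtain ⟨i0, hi0⟩ := hfin
    exact comb_caseI h i0 hi0 m

end Comb

end Pool.Agent.TH76.BinPart
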