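import Mathlib
import Pool.Agent.TH76.BinPart.Basic

/-!
# Forward limits of towers, compactness, minimal points
-/

namespace Pool.Agent.TH76.BinPart

open Finset

set_option linter.unusedSectionVars false
set_option linter.style.haveILetI false

section Lim
variable {F : Type*} [Field F]

/-- `w` is a forward limit (in the fibre over `0 ∈ ℤ₂`) of the `k`-tuple of towers `v`. -/
def Lim (k : ℕ) (v w : ℕ → ℕ → F) : Prop :=
  ∀ K, ∃ m, 1 ≤ m ∧ ∀ i, i < k → ∀ j, j ≤ K → X (v i) j (2^(K-j)*m) = w i j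

theorem Lim.val {k : ℕ} {v w : ℕ → ℕ → F} (h : Lim k v w) (L K : ℕ) (hK : 2*L ≤ K) :
    ∃ m, 1 ≤ m ∧ ∀ i, i < k → ∀ j, j ≤ L → ∀ n, n ≤ L →
      X (w i) j n = X (v i) j (2^(K-j)*m + n) := by
  obtain ⟨m, hm, h1⟩ := h K
  refine ⟨m, hm, ?_⟩
  intro i hi j hj n hn
  have hb := X_block (v i) (fun i' => w i (j + i')) j (K-j) m (by
    intro i' hi'
    rw [show K - j - i' = K - (j+i') by omega]
    exact h1 i hi (j+i') (by omega)) n 0 (Nat.zero_le _) (by
      rw [Nat.sub_zero]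
      calc n ≤ L := hn
        _ < 2^L := Nat.lt_two_pow_self
        _ ≤ 2^(K-j) := Nat.pow_le_pow_right (by norm_num) (by omega))
  rw [Nat.sub_zero, Nat.add_zero] at hb
  rw [hb, X_shift, Nat.add_zero]

theorem Lim.trans {k : ℕ} {v w z : ℕ → ℕ → F} (h1 : Lim k v w) (h2 : Lim k w z) : Lim k v z := by
  intro K
  obtain ⟨m2, hm2, h2'⟩ := h2 K
  obtain ⟨m1, hm1, h1'⟩ := h1.val (K + 2^K*m2) (2*(K+2^K*m2)) le_rfl
  set K' := 2*(K+2^K*m2) with hK'
  refine ⟨2^(K'-K)*m1 + m2, by omega, ?_⟩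
  intro i hi j hj
  have hle : 2^(K-j)*m2 ≤ K + 2^K*m2 := by
    have : 2^(K-j)*m2 ≤ 2^K*m2 := Nat.mul_le_mul_right _ (Nat.pow_le_pow_right (by norm_num) (by omega))
    omega
  have := h1' i hi j (by omega) (2^(K-j)*m2) hle
  rw [h2' i hi j hj] at this
  rw [this]
  congr 1
  have hKK : K ≤ K' := by omega
  have : 2^(K'-j) = 2^(K-j)*2^(K'-K) := by
    rw [← pow_add]; congr 1; omega
  rw [this]; ring

theorem Lim.congr {k : ℕ} {v w v' w' : ℕ → ℕ → F} (hv : ∀ i, i < k → ∀ j, v i j = v' i j)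
    (hw : ∀ i, i < k → ∀ j, w i j = w' i j) (h : Lim k v w) : Lim k v' w' := by
  intro K
  obtain ⟨m, hm, h1⟩ := h K
  refine ⟨m, hm, ?_⟩
  intro i hi j hj
  rw [← hw i hi j, ← h1 i hi j hj]
  congr 1
  funext j'
  exact (hv i hi j').symm

theorem Lim.mono {k k' : ℕ} {v w : ℕ → ℕ → F} (hk : k' ≤ k) (h : Lim k v w) : Lim k' v w := by
  intro K
  obtain ⟨m, hm, h1⟩ := h K
  exact ⟨m, hm, fun i hi j hj => h1 i (by omega) j hj⟩

/-- linear image of a tuple -/
def lin (k : ℕ) (M : ℕ → ℕ → F) (v : ℕ → ℕ → F) : ℕ → ℕ → F :=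
  fun i j => ∑ l ∈ range k, M i l * v l j

theorem Lim.map {k : ℕ} {v w : ℕ → ℕ → F} (h : Lim k v w) (M : ℕ → ℕ → F) (k' : ℕ) :
    Lim k' (lin k M v) (lin k M w) := by
  intro K
  obtain ⟨m, hm, h1⟩ := h K
  refine ⟨m, hm, ?_⟩
  intro i _ j hj
  have : X (lin k M v i) j (2^(K-j)*m) = ∑ l ∈ range k, M i l * X (v l) j (2^(K-j)*m) :=
    X_lin (range k) (M i) v j _
  rw [this]
  exact Finset.sum_congr rfl (fun l hl => by rw [h1 l (Finset.mem_range.mp hl) j hj])

theorem Lim.shift {k : ℕ} {v w : ℕ → ℕ → F} (h : Lim k v w) (s : ℕ) :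
    Lim k (fun i j => v i (s+j)) (fun i j => w i (s+j)) := by
  intro K
  obtain ⟨m, hm, h1⟩ := h (s+K)
  refine ⟨m, hm, ?_⟩
  intro i hi j hj
  have := h1 i hi (s+j) (by omega)
  rw [show s + K - (s+j) = K - j by omega] at this
  rw [X_shift]
  exact this

/-- one-coordinate version -/
def Lim1 (x y : ℕ → F) : Prop := Lim 1 (fun _ => x) (fun _ => y)

theorem lim1_iff {x y : ℕ → F} :
    Lim1 x y ↔ ∀ K, ∃ m, 1 ≤ m ∧ ∀ j, j ≤ K → X x j (2^(K-j)*m) = y j := by
  constructor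
  · intro h K
    obtain ⟨m, hm, h1⟩ := h K
    exact ⟨m, hm, fun j hj => h1 0 (by norm_num) j hj⟩
  · intro h K
    obtain ⟨m, hm, h1⟩ := h K
    exact ⟨m, hm, fun _ _ j hj => h1 j hj⟩

/-- dot product of a linear form with a tuple -/
def dot (k : ℕ) (e : ℕ → F) (v : ℕ → ℕ → F) : ℕ → F := fun j => ∑ i ∈ range k, e i * v i j

theorem X_dot (k : ℕ) (e : ℕ → F) (v : ℕ → ℕ → F) (j n : ℕ) :
    X (dot k e v) j n = ∑ i ∈ range k, e i * X (v i) j n := X_lin (range k) e v j n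

theorem Lim.dot {k : ℕ} {v w : ℕ → ℕ → F} (h : Lim k v w) (e : ℕ → F) :
    Lim1 (dot k e v) (dot k e w) := h.map (fun _ => e) 1

theorem Lim.coord {k : ℕ} {v w : ℕ → ℕ → F} (h : Lim k v w) (i : ℕ) (hi : i < k) :
    Lim1 (v i) (w i) := by
  rw [lim1_iff]
  intro K
  obtain ⟨m, hm, h1⟩ := h K
  exact ⟨m, hm, fun j hj => h1 i hi j hj⟩

theorem dot_zero_lim {k : ℕ} {v w : ℕ → ℕ → F} (h : Lim k v w) (e : ℕ → F)
    (h0 : dot k e v = fun _ => 0) : dot k e w = fun _ => 0 := by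
  have h1 := h.dot e
  rw [lim1_iff] at h1
  funext j
  obtain ⟨m, _, h2⟩ := h1 j
  rw [← h2 j le_rfl, h0, X_zero_fun]

end Lim

section Compact
variable {F : Type*} [Field F] [Finite F]

theorem compactness (T : ℕ → Set (ℕ → ℕ → F)) (B : ℕ → ℕ)
    (hloc : ∀ K w w', (∀ i, i < B K → ∀ j, j < B K → w i j = w' i j) → w ∈ T K → w' ∈ T K)
    (hdec : ∀ K, T (K+1) ⊆ T K) (hne : ∀ K, (T K).Nonempty) : ∃ w, ∀ K, w ∈ T K := by
  classical
  letI : TopologicalSpace F := ⊥
  haveI : DiscreteTopology F := ⟨rfl⟩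
  have hcyl : ∀ (b : ℕ) (w : ℕ → ℕ → F),
      IsOpen {w' : ℕ → ℕ → F | ∀ i, i < b → ∀ j, j < b → w i j = w' i j} := by
    intro b w
    have : {w' : ℕ → ℕ → F | ∀ i, i < b → ∀ j, j < b → w i j = w' i j} =
        ⋂ i ∈ range b, ⋂ j ∈ range b, {w' : ℕ → ℕ → F | w' i j = w i j} := by
      ext w'
      simp only [Set.mem_ofPred_eq, Set.mem_iInter, Finset.mem_range]
      constructor
      · intro h i hi j hj
        exact (h i hi j hj).symm
      · intro h i hi j hj
        exact (h i hi j hj).symm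
    rw [this]
    apply isOpen_biInter_finset
    intro i _
    apply isOpen_biInter_finset
    intro j _
    have hc : Continuous (fun w' : ℕ → ℕ → F => w' i j) := by fun_prop
    exact (isOpen_discrete {w i j}).preimage hc
  have hclosed : ∀ K, IsClosed (T K) := by
    intro K
    rw [← isOpen_compl_iff, isOpen_iff_forall_mem_open]
    intro w hw
    refine ⟨{w' | ∀ i, i < B K → ∀ j, j < B K → w i j = w' i j}, ?_, hcyl _ _, ?_⟩
    · intro w' hw' hmem
      exact hw (hloc K w' w (fun i hi j hj => (hw' i hi j hj).symm) hmem)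
    · intro i _ j _; rfl
  have := IsCompact.nonempty_iInter_of_sequence_nonempty_isCompact_isClosed T hdec hne
    (hclosed 0).isCompact hclosed
  obtain ⟨w, hw⟩ := this
  exact ⟨w, fun K => Set.mem_iInter.mp hw K⟩

/-- state of the tuple at position `m` (scale `K`) -/
def st (v : ℕ → ℕ → F) (K m : ℕ) : ℕ → ℕ → F := fun i j => X (v i) j (2^(K-j)*m)

theorem lim_exists (k : ℕ) (v : ℕ → ℕ → F) (Q : ℕ → (ℕ → ℕ → F) → Prop)
    (hloc : ∀ K w w', (∀ i, i < k → ∀ j, j ≤ K → w i j = w' i j) → Q K w → Q K w')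
    (hmono : ∀ K w, Q (K+1) w → Q K w)
    (h : ∀ K, ∃ m, 1 ≤ m ∧ Q K (st v K m)) :
    ∃ w, Lim k v w ∧ ∀ K, Q K w := by
  obtain ⟨w, hw⟩ := compactness
    (fun K => {w : ℕ → ℕ → F | ∃ m, 1 ≤ m ∧ (∀ i, i < k → ∀ j, j ≤ K → X (v i) j (2^(K-j)*m) = w i j)
      ∧ Q K w}) (fun K => k + K + 1) (by
      rintro K w w' hww' ⟨m, hm, h1, h2⟩
      refine ⟨m, hm, ?_, ?_⟩
      · intro i hi j hj
        rw [h1 i hi j hj]
        exact hww' i (by omega) j (by omega)
      · exact hloc K w w' (fun i hi j hj => hww' i (by omega) j (by omega)) h2) (by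
      rintro K w ⟨m, hm, h1, h2⟩
      refine ⟨2*m, by omega, ?_, hmono K w h2⟩
      intro i hi j hj
      have := h1 i hi j (by omega)
      rw [← this]
      congr 1
      rw [show K + 1 - j = (K - j) + 1 by omega, pow_succ]; ring) (by
      intro K
      obtain ⟨m, hm, h1⟩ := h K
      exact ⟨st v K m, m, hm, fun i _ j _ => rfl, h1⟩)
  refine ⟨w, ?_, ?_⟩
  · intro K
    obtain ⟨m, hm, h1, _⟩ := hw K
    exact ⟨m, hm, h1⟩
  · intro K
    obtain ⟨_, _, _, h2⟩ := hw K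
    exact h2

theorem lim_nonempty (k : ℕ) (v : ℕ → ℕ → F) : ∃ w, Lim k v w := by
  obtain ⟨w, hw, _⟩ := lim_exists k v (fun _ _ => True) (fun _ _ _ _ _ => trivial)
    (fun _ _ _ => trivial) (fun _ => ⟨1, le_rfl, trivial⟩)
  exact ⟨w, hw⟩

/-- two positions -/
theorem lim_exists₂ (k : ℕ) (v : ℕ → ℕ → F) (Q : ℕ → (ℕ → ℕ → F) → (ℕ → ℕ → F) → Prop)
    (hloc : ∀ K w w' z z', (∀ i, i < k → ∀ j, j ≤ K → w i j = w' i j) →
      (∀ i, i < k → ∀ j, j ≤ K → z i j = z' i j) → Q K w z → Q K w' z')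
    (hmono : ∀ K w z, Q (K+1) w z → Q K w z)
    (h : ∀ K, ∃ m m', 1 ≤ m ∧ 1 ≤ m' ∧ Q K (st v K m) (st v K m')) :
    ∃ w z, Lim k v w ∧ Lim k v z ∧ ∀ K, Q K w z := by
  obtain ⟨w, hw⟩ := compactness
    (fun K => {w : ℕ → ℕ → F | ∃ m m', 1 ≤ m ∧ 1 ≤ m' ∧
      (∀ i, i < k → ∀ j, j ≤ K → X (v i) j (2^(K-j)*m) = w (2*i) j)
      ∧ (∀ i, i < k → ∀ j, j ≤ K → X (v i) j (2^(K-j)*m') = w (2*i+1) j)
      ∧ Q K (fun i => w (2*i)) (fun i => w (2*i+1))}) (fun K => 2*k + K + 1) (by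
      rintro K w w' hww' ⟨m, m', hm, hm', h1, h2, h3⟩
      refine ⟨m, m', hm, hm', ?_, ?_, ?_⟩
      · intro i hi j hj
        rw [h1 i hi j hj]
        exact hww' _ (by omega) j (by omega)
      · intro i hi j hj
        rw [h2 i hi j hj]
        exact hww' _ (by omega) j (by omega)
      · exact hloc K _ _ _ _ (fun i hi j hj => hww' _ (by omega) j (by omega))
          (fun i hi j hj => hww' _ (by omega) j (by omega)) h3) (by
      rintro K w ⟨m, m', hm, hm', h1, h2, h3⟩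
      refine ⟨2*m, 2*m', by omega, by omega, ?_, ?_, hmono K _ _ h3⟩
      · intro i hi j hj
        have := h1 i hi j (by omega)
        rw [← this]
        congr 1
        rw [show K + 1 - j = (K - j) + 1 by omega, pow_succ]; ring
      · intro i hi j hj
        have := h2 i hi j (by omega)
        rw [← this]
        congr 1
        rw [show K + 1 - j = (K - j) + 1 by omega, pow_succ]; ring) (by
      intro K
      obtain ⟨m, m', hm, hm', h1⟩ := h K
      refine ⟨fun i => if i % 2 = 0 then st v K m (i/2) else st v K m' (i/2), m, m', hm, hm', ?_, ?_, ?_⟩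
      · intro i _ j _
        simp only [Nat.mul_mod_right, if_true]
        rw [show 2*i/2 = i by omega]
        rfl
      · intro i _ j _
        have hodd : ¬ ((2*i+1) % 2 = 0) := by omega
        simp only [hodd, if_false]
        rw [show (2*i+1)/2 = i by omega]
        rfl
      · have e1 : (fun i => if (2*i) % 2 = 0 then st v K m ((2*i)/2) else st v K m' ((2*i)/2))
            = st v K m := by
          funext i
          rw [if_pos (by omega), show 2*i/2 = i by omega]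
        have e2 : (fun i => if (2*i+1) % 2 = 0 then st v K m ((2*i+1)/2) else st v K m' ((2*i+1)/2))
            = st v K m' := by
          funext i
          rw [if_neg (by omega), show (2*i+1)/2 = i by omega]
        rw [e1, e2]
        exact h1)
  refine ⟨fun i => w (2*i), fun i => w (2*i+1), ?_, ?_, ?_⟩
  · intro K
    obtain ⟨m, m', hm, hm', h1, h2, h3⟩ := hw K
    exact ⟨m, hm, h1⟩
  · intro K
    obtain ⟨m, m', hm, hm', h1, h2, h3⟩ := hw K
    exact ⟨m', hm', h2⟩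
  · intro K
    obtain ⟨m, m', hm, hm', h1, h2, h3⟩ := hw K
    exact h3

/-- minimal points -/
def Min (k : ℕ) (v : ℕ → ℕ → F) : Prop := ∀ w, Lim k v w → Lim k w v

theorem Min.self {k : ℕ} {v : ℕ → ℕ → F} (h : Min k v) : Lim k v v := by
  obtain ⟨w, hw⟩ := lim_nonempty k v
  exact hw.trans (h w hw)

theorem Min.lim {k : ℕ} {v w : ℕ → ℕ → F} (h : Min k v) (hw : Lim k v w) : Min k w := by
  intro z hz
  exact (h z (hw.trans hz)).trans hw

theorem exists_min (k : ℕ) (v : ℕ → ℕ → F) : ∃ w, Lim k v w ∧ Min k w := by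
  classical
  letI : TopologicalSpace F := ⊥
  haveI : DiscreteTopology F := ⟨rfl⟩
  have hclosed : ∀ v : ℕ → ℕ → F, IsClosed {w | Lim k v w} := by
    intro v
    have : {w | Lim k v w} = ⋂ K, ⋃ m ∈ {m : ℕ | 1 ≤ m},
        {w : ℕ → ℕ → F | ∀ i, i < k → ∀ j, j ≤ K → X (v i) j (2^(K-j)*m) = w i j} := by
      ext w
      simp only [Set.mem_ofPred_eq, Set.mem_iInter, Set.mem_iUnion, Lim, exists_prop]
    rw [this]
    apply isClosed_iInter
    intro K
    -- the union is determined by finitely many coordinates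
    rw [← isOpen_compl_iff, isOpen_iff_forall_mem_open]
    intro w hw
    refine ⟨⋂ i ∈ range k, ⋂ j ∈ range (K+1), {w' : ℕ → ℕ → F | w' i j = w i j}, ?_, ?_, ?_⟩
    · intro w' hw' hmem
      apply hw
      simp only [Set.mem_iInter, Finset.mem_range, Set.mem_ofPred_eq] at hw'
      simp only [Set.mem_iUnion, Set.mem_ofPred_eq, exists_prop] at hmem ⊢
      obtain ⟨m, hm, h1⟩ := hmem
      exact ⟨m, hm, fun i hi j hj => by rw [h1 i hi j hj]; exact hw' i hi j (by omega)⟩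
    · apply isOpen_biInter_finset
      intro i _
      apply isOpen_biInter_finset
      intro j _
      have hc : Continuous (fun w' : ℕ → ℕ → F => w' i j) := by fun_prop
      exact (isOpen_discrete {w i j}).preimage hc
    · simp
  let S : Set (Set (ℕ → ℕ → F)) := {A | IsClosed A ∧ A.Nonempty ∧ ∀ w ∈ A, ∀ z, Lim k w z → z ∈ A}
  have hz := zorn_superset_nonempty S (by
    intro c hc hchain hcne
    refine ⟨⋂₀ c, ⟨isClosed_sInter (fun A hA => (hc hA).1), ?_, ?_⟩, fun A hA => Set.sInter_subset_of_mem hA⟩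
    · haveI : Nonempty c := hcne.to_subtype
      apply IsCompact.nonempty_sInter_of_directed_nonempty_isCompact_isClosed
      · intro A hA B hB
        rcases hchain.total hA hB with h | h
        · exact ⟨A, hA, subset_rfl, h⟩
        · exact ⟨B, hB, h, subset_rfl⟩
      · exact fun A hA => (hc hA).2.1
      · exact fun A hA => (hc hA).1.isCompact
      · exact fun A hA => (hc hA).1
    · intro w hw z hz A hA
      exact (hc hA).2.2 w (hw A hA) z hz) {w | Lim k v w} (by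
      refine ⟨hclosed v, lim_nonempty k v, ?_⟩
      intro w hw z hz
      exact Lim.trans hw hz)
  obtain ⟨A, hA, hmin⟩ := hz
  obtain ⟨w, hw⟩ := hmin.prop.2.1
  refine ⟨w, hA hw, ?_⟩
  intro z hz
  have hzA : z ∈ A := hmin.prop.2.2 w hw z hz
  have hsub : {y | Lim k z y} ⊆ A := fun y hy => hmin.prop.2.2 z hzA y hy
  have hmem : {y | Lim k z y} ∈ S := ⟨hclosed z, lim_nonempty k z, fun a ha b hb => Lim.trans ha hb⟩
  have := hmin.le_of_le hmem hsub
  exact this hw

end Compact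

end Pool.Agent.TH76.BinPart
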