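import Mathlib
import Pool.Agent.TH76.BinPart.Lim

/-!
# Existence of special (asymptotic) pairs
-/

namespace Pool.Agent.TH76.BinPart

open Finset

set_option linter.unusedSectionVars false

section Om
variable {F : Type*} [Field F]

/-- zero-free along the positions `≡ 2 mod 4`, at all levels -/
def Om (x : ℕ → F) : Prop := ∀ k n, n % 4 = 2 → X x k n ≠ 0

/-- the contradiction hypothesis -/
def Hyp (F : Type*) [Field F] (N : ℕ) : Prop := ∀ n, N ≤ n → n % 4 = 2 → aa F n ≠ 0

theorem Om.lim {x y : ℕ → F} (h : Om x) (hl : Lim1 x y) : Om y := by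
  intro k n hn
  obtain ⟨m, hm, h1⟩ := Lim.val hl (k+n+2) (2*(k+n+2)) le_rfl
  have h2 := h1 0 (by norm_num) k (by omega) n (by omega)
  rw [h2]
  apply h
  obtain ⟨q, hq⟩ : ∃ q, 2*(k+n+2) - k = q + 2 := ⟨2*(k+n+2) - k - 2, by omega⟩
  rw [hq, pow_add]
  have : 2^q * 2^2 * m + n = 4 * (2^q*m) + n := by ring
  omega

theorem Hyp.om {N : ℕ} (h : Hyp F N) {y : ℕ → F} (hl : Lim1 (fun _ => (1:F)) y) : Om y := by
  intro k n hn
  obtain ⟨m, hm, h1⟩ := Lim.val hl (k+n+2) (2*(k+n+2)+N) (by omega)
  have h2 := h1 0 (by norm_num) k (by omega) n (by omega)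
  rw [h2, X_one]
  obtain ⟨q, hq, hqN⟩ : ∃ q, 2*(k+n+2) + N - k = q + 2 ∧ N ≤ q := ⟨2*(k+n+2) + N - k - 2, by omega, by omega⟩
  rw [hq, pow_add]
  have e : 2^q * 2^2 * m + n = 4 * (2^q*m) + n := by ring
  apply h
  · have : N < 2^q := lt_of_le_of_lt hqN Nat.lt_two_pow_self
    have h3 : 2^q ≤ 2^q*m := Nat.le_mul_of_pos_right _ (by omega)
    omega
  · omega

/-- eventually periodic towers are not zero-free -/
theorem Om.not_periodic {x : ℕ → F} (hx : Om x) : ∀ (P : ℕ), 1 ≤ P → ∀ (κ : ℕ),
    (∃ u0, ∀ u, u0 ≤ u → X x κ (u+P) = X x κ u) → False := by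
  intro P
  induction P using Nat.strong_induction_on with
  | _ P ih =>
    intro hP κ hper
    obtain ⟨u0, hu0⟩ := hper
    rcases Nat.even_or_odd P with ⟨P', hP'⟩ | ⟨P', hP'⟩
    · -- even
      refine ih P' (by omega) (by omega) (κ+1) ⟨u0+1, ?_⟩
      intro m hm
      have e1 := X_even x κ (m+P') (by omega)
      have e2 := X_even x κ m (by omega)
      have e3 := hu0 (2*m) (by omega)
      have e4 := hu0 (2*m-1) (by omega)
      rw [show 2*m + P = 2*(m+P') by omega] at e3
      rw [show 2*m-1 + P = 2*(m+P')-1 by omega] at e4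
      rw [e3, e4, e2] at e1
      have := add_left_cancel e1
      exact this.symm
    · -- odd
      have key : ∀ m, u0 + 1 ≤ m → X x (κ+1) (m+1) = X x (κ+1) m := by
        intro m hm
        -- u = 2m+1
        have a1 := X_succ x κ (2*m+1)
        have a2 := X_succ x κ (2*m)
        have a3 := X_succ x κ (2*m+1+P)
        have a4 := X_succ x κ (2*m+P)
        have b1 := hu0 (2*m+1) (by omega)
        have b2 := hu0 (2*m+2) (by omega)
        have b3 := hu0 (2*m) (by omega)
        rw [show (2*m+1+1)/2 = m+1 by omega] at a1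
        rw [show (2*m+1)/2 = m by omega] at a2
        rw [show 2*m+1+P+1 = 2*m+2+P by omega, b2, b1] at a3
        rw [show 2*m+P+1 = 2*m+1+P by omega, b1, b3] at a4
        rw [show (2*m+2+P)/2 = (2*m+1+P)/2 by omega] at a3
        rw [show 2*m+1+1 = 2*m+2 by omega] at a1
        have c1 : X x (κ+1) (m+1) = X x κ (2*m+2) - X x κ (2*m+1) := by rw [a1]; ring
        have c2 : X x (κ+1) m = X x κ (2*m+1) - X x κ (2*m) := by rw [a2]; ring
        have c3 : X x (κ+1) ((2*m+1+P)/2) = X x κ (2*m+2) - X x κ (2*m+1) := by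
          linear_combination (-1:F)*a3
        have c4 : X x (κ+1) ((2*m+1+P)/2) = X x κ (2*m+1) - X x κ (2*m) := by
          linear_combination (-1:F)*a4
        rw [c1, c2, ← c3, ← c4]
      -- level κ+2 eventually zero
      have hz : X x (κ+2) (4*(u0+1)+2) = 0 := by
        have h1 := X_even x (κ+1) (4*(u0+1)+2) (by omega)
        have h2 := key (2*(4*(u0+1)+2)-1) (by omega)
        rw [show 2*(4*(u0+1)+2)-1+1 = 2*(4*(u0+1)+2) by omega, h1] at h2
        have : X x (κ+1+1) (4*(u0+1)+2) = 0 := by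
          have := h2
          linear_combination this
        exact this
      exact hx (κ+2) (4*(u0+1)+2) (by omega) hz

end Om

section Special
variable {F : Type*} [Field F] [Finite F]

theorem special_exists {k : ℕ} (hk : 1 ≤ k) (v : ℕ → ℕ → F) (h0 : Om (v 0)) :
    ∃ (s : ℕ → ℕ → F) (δ : ℕ → F), Lim k v s ∧ (∃ i, i < k ∧ δ i ≠ 0) ∧
      Lim k v (fun i j => s i j + δ i) := by
  classical
  by_contra hno
  -- finite determinism
  have hK : ∃ K, ∀ m m', 1 ≤ m → 1 ≤ m' → ∀ δ : ℕ → F, (∃ i, i < k ∧ δ i ≠ 0) →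
      ¬ (∀ i, i < k → ∀ j, j ≤ K → X (v i) j (2^(K-j)*m') = X (v i) j (2^(K-j)*m) + δ i) := by
    by_contra hcon
    push Not at hcon
    obtain ⟨w, z, hw, hz, hQ⟩ := lim_exists₂ k v
      (fun K w z => ∃ δ : ℕ → F, (∃ i, i < k ∧ δ i ≠ 0) ∧
        ∀ i, i < k → ∀ j, j ≤ K → z i j = w i j + δ i) (by
        rintro K w w' z z' hw hz ⟨δ, hδ, h1⟩
        refine ⟨δ, hδ, ?_⟩
        intro i hi j hj
        rw [← hw i hi j hj, ← hz i hi j hj]
        exact h1 i hi j hj) (by
        rintro K w z ⟨δ, hδ, h1⟩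
        exact ⟨δ, hδ, fun i hi j hj => h1 i hi j (by omega)⟩) (by
        intro K
        obtain ⟨m, m', hm, hm', δ, hδ, h1⟩ := hcon K
        exact ⟨m, m', hm, hm', δ, hδ, h1⟩)
    apply hno
    refine ⟨w, fun i => z i 0 - w i 0, hw, ?_, ?_⟩
    · obtain ⟨δ, ⟨i, hi, hδ⟩, h1⟩ := hQ 0
      refine ⟨i, hi, ?_⟩
      show z i 0 - w i 0 ≠ 0
      rw [h1 i hi 0 le_rfl]
      simpa using hδ
    · refine hz.congr (fun i _ j => rfl) ?_
      intro i hi j
      obtain ⟨δ, _, h1⟩ := hQ j
      simp only
      rw [h1 i hi j le_rfl, h1 i hi 0 (Nat.zero_le _)]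
      ring
  obtain ⟨K, hK⟩ := hK
  let S : ℕ → (Fin k × Fin (K+1) → F) := fun u x => X (v x.1) x.2 (2^(K-x.2.1)*(u+1))
  have hstep : ∀ u u', S u = S u' → S (u+1) = S (u'+1) := by
    intro u u' hS
    have hS' : ∀ i, i < k → ∀ j, j ≤ K →
        X (v i) j (2^(K-j)*(u+1)) = X (v i) j (2^(K-j)*(u'+1)) := by
      intro i hi j hj
      exact congrFun hS (⟨i, hi⟩, ⟨j, by omega⟩)
    -- differences are constant
    have hconst : ∀ i, i < k → ∀ t j, j + t = K →
        X (v i) j (2^(K-j)*(u'+1+1)) = X (v i) j (2^(K-j)*(u+1+1)) +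
          (X (v i) K (u'+1+1) - X (v i) K (u+1+1)) := by
      intro i hi t
      induction t with
      | zero =>
        intro j hj
        have : j = K := by omega
        subst this
        simp
      | succ t ih =>
        intro j hj
        have ih' := ih (j+1) (by omega)
        obtain ⟨q, hq⟩ : ∃ q, K - j = q + 1 := ⟨K-j-1, by omega⟩
        have hq' : K - (j+1) = q := by omega
        rw [hq'] at ih'
        rw [hq]
        have e1 : ∀ w, 2^(q+1)*w = 2*(2^q*w) := by intro w; ring
        have hpos : ∀ w, 1 ≤ w → 1 ≤ 2^q*w := by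
          intro w hw; exact Nat.mul_pos (by positivity) hw
        have e2 := X_even (v i) j (2^q*(u+1+1)) (hpos _ (by omega))
        have e3 := X_even (v i) j (2^q*(u'+1+1)) (hpos _ (by omega))
        rw [e1, e1, e2, e3, ih']
        -- block values agree
        have hb : X (v i) j (2*(2^q*(u+1+1))-1) = X (v i) j (2*(2^q*(u'+1+1))-1) := by
          have b1 := X_block (v i) (fun i' => X (v i) (j+i') (2^(K-j-i')*(u+1))) j (K-j) (u+1)
            (fun i' _ => rfl) (2^(K-j)-1) 0 (Nat.zero_le _) (by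
              have : 0 < 2^(K-j) := by positivity
              rw [Nat.sub_zero]; omega)
          have b2 := X_block (v i) (fun i' => X (v i) (j+i') (2^(K-j-i')*(u+1))) j (K-j) (u'+1)
            (fun i' hi' => by
              have := hS' i hi (j+i') (by omega)
              rw [show K - j - i' = K - (j+i') by omega]
              exact this.symm) (2^(K-j)-1) 0 (Nat.zero_le _) (by
              have : 0 < 2^(K-j) := by positivity
              rw [Nat.sub_zero]; omega)
          rw [← b2] at b1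
          simp only [Nat.sub_zero, Nat.add_zero] at b1
          rw [hq] at b1
          have p1 : ∀ w, 2^(q+1)*w + (2^(q+1)-1) = 2*(2^q*(w+1)) - 1 := by
            intro w
            have : 0 < 2^q := by positivity
            have h2 : 2^(q+1) = 2*2^q := by ring
            rw [h2]
            have h3 : 2*(2^q*(w+1)) = 2*2^q*w + 2*2^q := by ring
            omega
          rw [p1, p1] at b1
          exact b1
        rw [hb]
        ring
    -- the difference vector must vanish
    have hzero : ∀ i, i < k → X (v i) K (u'+1+1) - X (v i) K (u+1+1) = 0 := by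
      intro i hi
      by_contra hne
      refine hK (u+1+1) (u'+1+1) (by omega) (by omega)
        (fun i => X (v i) K (u'+1+1) - X (v i) K (u+1+1)) ⟨i, hi, hne⟩ ?_
      intro i' hi' j hj
      exact hconst i' hi' (K-j) j (by omega)
    funext x
    have := hconst x.1 x.1.2 (K - x.2.1) x.2.1 (by have := x.2.2; omega)
    rw [hzero x.1 x.1.2, add_zero] at this
    exact this.symm
  obtain ⟨u, u', hne, hu⟩ := Finite.exists_ne_map_eq_of_infinite S
  -- wlog u < u'
  have main : ∀ u u', u < u' → S u = S u' → False := by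
    intro u u' hlt hS
    have hall : ∀ t, S (u+t) = S (u'+t) := by
      intro t
      induction t with
      | zero => exact hS
      | succ t ih => exact hstep _ _ ih
    refine h0.not_periodic (u'-u) (by omega) K ⟨u+1, ?_⟩
    intro w hw
    obtain ⟨t, rfl⟩ : ∃ t, w = u + t + 1 := ⟨w - u - 1, by omega⟩
    have := congrFun (hall t) (⟨0, by omega⟩, ⟨K, by omega⟩)
    simp only [S, Nat.sub_self, pow_zero, one_mul] at this
    rw [this]
    congr 1
    omega
  rcases lt_or_gt_of_ne hne with h | h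
  · exact main u u' h hu
  · exact main u' u h hu.symm

end Special

end Pool.Agent.TH76.BinPart
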