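import Mathlib
import Pool.Agent.TH76.BinPart.Special

/-!
# Nonzero towers are nonzero often (at positions `≡ 2 mod 4`)
-/

namespace Pool.Agent.TH76.BinPart

open Finset

set_option linter.unusedSectionVars false

section Density
variable {F : Type*} [Field F]

theorem class_zero (h2 : (2:F) ≠ 0) (r : ℕ → F) (J : ℕ) (hJ : 4 ≤ J)
    (h : ∀ t, t < 2^J → t % 4 = 2 → X r 0 t = 0) :
    ∀ j, j ≤ J → ∀ t, 1 ≤ t → t < 2^(J-j) → X r j t = 0 := by
  have h4 : (4:F) ≠ 0 := by
    have : (4:F) = 2*2 := by norm_num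
    rw [this]; exact mul_ne_zero h2 h2
  obtain ⟨Q, hQ, hQ4⟩ : ∃ Q, 2^J = 4*Q ∧ 4 ≤ Q := by
    refine ⟨2^(J-2), ?_, ?_⟩
    · rw [show (4:ℕ) = 2^2 by norm_num, ← pow_add]; congr 1; omega
    · calc 4 = 2^2 := by norm_num
        _ ≤ 2^(J-2) := Nat.pow_le_pow_right (by norm_num) (by omega)
  -- step a
  have ha : ∀ c, 4*c+6 < 4*Q → X r 1 (2*c+2) = 0 := by
    intro c hc
    have e1 := X_succ r 0 (4*c+2)
    have e2 := X_succ r 0 (4*c+3)
    have e3 := X_succ r 0 (4*c+4)
    have e4 := X_succ r 0 (4*c+5)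
    have e5 := X_succ r 1 (2*c+1)
    have e6 := X_succ r 1 (2*c+2)
    rw [show (4*c+2+1)/2 = 2*c+1 by omega] at e1
    rw [show (4*c+3+1)/2 = 2*c+2 by omega] at e2
    rw [show (4*c+4+1)/2 = 2*c+2 by omega] at e3
    rw [show (4*c+5+1)/2 = 2*c+3 by omega] at e4
    rw [show (2*c+1+1)/2 = c+1 by omega] at e5
    rw [show (2*c+2+1)/2 = c+1 by omega] at e6
    have z1 := h (4*c+2) (by omega) (by omega)
    have z2 := h (4*c+6) (by omega) (by omega)
    simp only [Nat.add_assoc, Nat.reduceAdd, Nat.zero_add] at e1 e2 e3 e4 e5 e6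
    rw [z1] at e1
    rw [z2] at e4
    have : (4:F) * X r 1 (2*c+2) = 0 := by
      linear_combination (-1:F)*e1 - e2 - e3 - e4 + e5 - e6
    rcases mul_eq_zero.mp this with h5 | h5
    · exact absurd h5 h4
    · exact h5
  -- step b
  have hb : ∀ c, 1 ≤ c → c + 1 < Q → X r 2 (c+1) = - X r 2 c := by
    intro c hc hcQ
    have e1 := X_succ r 1 (2*c)
    have e2 := X_succ r 1 (2*c+1)
    rw [show (2*c+1)/2 = c by omega] at e1
    rw [show (2*c+1+1)/2 = c+1 by omega] at e2
    have z1 := ha (c-1) (by omega)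
    rw [show 2*(c-1)+2 = 2*c by omega] at z1
    have z2 := ha c (by omega)
    simp only [Nat.add_assoc, Nat.reduceAdd] at e1 e2
    rw [z1] at e1
    rw [z2] at e2
    linear_combination (-1:F)*e1 - e2
  -- step c
  have hc1 : X r 2 1 = 0 := by
    have b1 := hb 1 le_rfl (by omega)
    have b2 := hb 2 (by omega) (by omega)
    have e1 := X_succ r 2 1
    have e2 := X_succ r 2 2
    norm_num at b1 b2 e1 e2
    have : (4:F) * X r 2 1 = 0 := by
      linear_combination 3*b1 - b2 - e1 + e2
    rcases mul_eq_zero.mp this with h5 | h5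
    · exact absurd h5 h4
    · exact h5
  have hc : ∀ c, 1 ≤ c → c < Q → X r 2 c = 0 := by
    intro c
    induction c with
    | zero => intro h _; omega
    | succ c ih =>
      intro _ hcQ
      rcases Nat.eq_zero_or_pos c with rfl | hpos
      · exact hc1
      · rw [hb c hpos hcQ, ih hpos (by omega), neg_zero]
  -- step d
  have hd : ∀ n, 1 ≤ n → n < 2*Q → X r 1 n = 0 := by
    intro n hn hnQ
    rcases Nat.even_or_odd n with ⟨c, hcn⟩ | ⟨c, hcn⟩
    · have := ha (c-1) (by omega)
      rw [show 2*(c-1)+2 = n by omega] at this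
      exact this
    · rcases Nat.eq_zero_or_pos c with rfl | hpos
      · have e1 := X_succ r 1 1
        have z := ha 0 (by omega)
        norm_num at e1 z
        rw [z, hc1] at e1
        rw [hcn]
        norm_num
        linear_combination (-1:F)*e1
      · have e1 := X_succ r 1 (2*c)
        rw [show (2*c+1)/2 = c by omega, hc c hpos (by omega)] at e1
        have z := ha (c-1) (by omega)
        rw [show 2*(c-1)+2 = 2*c by omega] at z
        rw [z] at e1
        rw [hcn, e1, add_zero]
  -- step e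
  have he0 : ∀ n, 1 ≤ n → n < 4*Q → X r 0 n = X r 0 1 := by
    intro n
    induction n with
    | zero => intro h _; omega
    | succ n ih =>
      intro _ hnQ
      rcases Nat.eq_zero_or_pos n with rfl | hpos
      · rfl
      · rw [X_succ, ih hpos (by omega), hd ((n+1)/2) (by omega) (by omega), add_zero]
  have he : ∀ n, 1 ≤ n → n < 4*Q → X r 0 n = 0 := by
    intro n hn hnQ
    rw [he0 n hn hnQ, ← he0 2 (by omega) (by omega)]
    exact h 2 (by omega) (by norm_num)
  -- step f
  intro j
  induction j with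
  | zero =>
    intro _ t ht htJ
    rw [Nat.sub_zero, hQ] at htJ
    exact he t ht htJ
  | succ j ih =>
    intro hj t ht htJ
    have hp : 2^(J-j) = 2*2^(J-(j+1)) := by
      rw [← pow_succ']; congr 1; omega
    have e1 := X_odd r j t
    rw [ih (by omega) (2*t+1) (by omega) (by omega), ih (by omega) (2*t) (by omega) (by omega)] at e1
    linear_combination (-1:F)*e1

theorem exit2 : ∀ (ℓ : ℕ) (r : ℕ → F) (U : ℕ), 1 ≤ ℓ →
    (∀ u, U < u → u < U + ℓ → X r 0 u = 0) → X r 0 (U+ℓ) ≠ 0 →
    ∃ i, ℓ + 1 ≤ 3 * 2^i ∧ 2^i ∣ (U+ℓ) ∧ ∀ i', i' ≤ i → X r i' ((U+ℓ)/2^i') = X r 0 (U+ℓ) := by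
  intro ℓ
  induction ℓ using Nat.strong_induction_on with
  | _ ℓ ih =>
    intro r U hℓ hz hne
    rcases Nat.lt_or_ge ℓ 3 with hlt | hge
    · refine ⟨0, by omega, by simp, ?_⟩
      intro i' hi'
      have : i' = 0 := by omega
      subst this
      simp
    · set t := U + ℓ with ht
      have heven : t % 2 = 0 := by
        by_contra hodd
        obtain ⟨u', hu'⟩ : ∃ u', t = 2*u'+1 := ⟨t/2, by omega⟩
        have e1 := X_odd r 0 u'
        have e2 := X_even r 0 u' (by omega)
        rw [hz (2*u') (by omega) (by omega)] at e1 e2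
        rw [hz (2*u'-1) (by omega) (by omega)] at e2
        rw [← hu'] at e1
        apply hne
        linear_combination e1 - e2
      obtain ⟨t', ht'⟩ : ∃ t', t = 2*t' := ⟨t/2, by omega⟩
      have e1 := X_even r 0 t' (by omega)
      rw [← ht', hz (t-1) (by omega) (by omega), zero_add] at e1
      -- shifted tower
      have hsh : ∀ l n, X (fun j => r (1+j)) l n = X r (1+l) n := fun l n => X_shift r 1 n l
      have hℓ' : U/2 + (t' - U/2) = t' := by omega
      obtain ⟨i, hi1, hi2, hi3⟩ := ih (t' - U/2) (by omega) (fun j => r (1+j)) (U/2) (by omega) (by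
        intro u hu1 hu2
        rw [hℓ'] at hu2
        rw [hsh]
        have e3 := X_odd r 0 u
        rw [hz (2*u+1) (by omega) (by omega), hz (2*u) (by omega) (by omega)] at e3
        have : X r (0+1) u = 0 := by linear_combination (-1:F)*e3
        exact this) (by
        rw [hsh, hℓ']
        rw [show (1+0:ℕ) = 0+1 by norm_num, ← e1]
        exact hne)
      rw [hℓ'] at hi2 hi3
      refine ⟨i+1, ?_, ?_, ?_⟩
      · have hp : 3*2^(i+1) = 2*(3*2^i) := by ring
        rw [hp]
        omega
      · rw [ht', pow_succ, mul_comm]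
        exact Nat.mul_dvd_mul_left 2 hi2
      · intro i' hi'
        rcases Nat.eq_zero_or_pos i' with rfl | hpos
        · simp
        · obtain ⟨l, rfl⟩ : ∃ l, i' = l + 1 := ⟨i'-1, by omega⟩
          have h5 := hi3 l (by omega)
          rw [hsh, hsh] at h5
          rw [e1, show 0+1 = 1+0 by norm_num, ← h5, Nat.add_comm 1 l]
          congr 1
          rw [ht', pow_succ', Nat.mul_div_mul_left _ _ (by norm_num : 0 < 2)]

/-- a block containing a nonzero value at a position `≡ 2 mod 4` -/
def GG (J : ℕ) (D : ℕ → F) (u : ℕ) : Prop := ∃ t, t < 2^J ∧ t % 4 = 2 ∧ X D 0 (2^J*u+t) ≠ 0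

theorem notG_zero (h2 : (2:F) ≠ 0) {J : ℕ} (hJ : 4 ≤ J) {D : ℕ → F} {u : ℕ} (h : ¬ GG J D u) :
    ∀ j, j ≤ J → ∀ t, 1 ≤ t → t < 2^(J-j) → X D j (2^(J-j)*u+t) = 0 := by
  have hb := X_block D (fun i => X D i (2^(J-i)*u)) 0 J u (by
    intro i hi
    rw [Nat.zero_add])
  have hz := class_zero h2 (fun i => X D i (2^(J-i)*u)) J hJ (by
    intro t ht ht4
    have h5 := hb t 0 (Nat.zero_le _) (by simpa using ht)
    rw [← h5]
    by_contra hcon
    apply h
    refine ⟨t, ht, ht4, ?_⟩
    simpa using hcon)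
  intro j hj t ht htJ
  have h5 := hb t j hj htJ
  rw [Nat.zero_add] at h5
  rw [h5]
  exact hz j hj t ht htJ

theorem notG_next (h2 : (2:F) ≠ 0) {J : ℕ} (hJ : 4 ≤ J) {D : ℕ → F} {u : ℕ} (h : ¬ GG J D u) :
    ∀ j, j ≤ J → X D j (2^(J-j)*(u+1)) = X D J (u+1) := by
  have key : ∀ t j, j + t = J → X D j (2^t*(u+1)) = X D J (u+1) := by
    intro t
    induction t with
    | zero =>
      intro j hj
      have : j = J := by omega
      subst this
      simp
    | succ t ih =>
      intro j hj
      have hp : 2^(t+1) = 2*2^t := by ring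
      have hpos : 0 < 2^t := by positivity
      have e1 := X_even D j (2^t*(u+1)) (Nat.mul_pos hpos (by omega))
      rw [ih (j+1) (by omega)] at e1
      have hz := notG_zero h2 hJ h j (by omega) (2^(t+1)-1) (by omega)
        (by rw [show J - j = t+1 by omega]; omega)
      rw [show J - j = t+1 by omega] at hz
      have e2 : 2*(2^t*(u+1)) - 1 = 2^(t+1)*u + (2^(t+1)-1) := by
        rw [hp]
        have : 2*(2^t*(u+1)) = 2*2^t*u + 2*2^t := by ring
        omega
      rw [e2, hz, zero_add] at e1
      rw [hp, mul_assoc]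
      exact e1
  intro j hj
  exact key (J-j) j (by omega)

theorem zero_next (h2 : (2:F) ≠ 0) {J : ℕ} (hJ : 4 ≤ J) {D : ℕ → F} {u : ℕ} (h : ¬ GG J D u)
    (h0 : X D J (u+1) = 0) : ¬ GG J D (u+1) := by
  rintro ⟨t, ht, _, hne⟩
  apply hne
  have hb := X_block D (fun _ => (0:F)) 0 J (u+1) (by
    intro i hi
    rw [Nat.zero_add, notG_next h2 hJ h i hi, h0]) t 0 (Nat.zero_le _) (by simpa using ht)
  rw [X_zero_fun] at hb
  simpa using hb

theorem run_notG (h2 : (2:F) ≠ 0) {J : ℕ} (hJ : 4 ≤ J) {D : ℕ → F} {U t : ℕ} (h : ¬ GG J D U)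
    (hz : ∀ u, U < u → u < t → X D J u = 0) : ∀ b, U + b < t → ¬ GG J D (U + b) := by
  intro b
  induction b with
  | zero => intro _; exact h
  | succ b ih =>
    intro hb
    have h1 := ih (by omega)
    exact zero_next h2 hJ h1 (hz (U+b+1) (by omega) (by omega))

theorem run_bounded (h2 : (2:F) ≠ 0) {J : ℕ} (hJ : 4 ≤ J) {D : ℕ → F}
    (hD : ¬ Lim1 D (fun _ => 0)) : ∃ R, ∀ U, ¬ GG J D U → ∃ t, U < t ∧ t ≤ U + R ∧ X D J t ≠ 0 := by
  rw [lim1_iff] at hD
  push Not at hD
  obtain ⟨K, hK⟩ := hD
  refine ⟨3*2^K, ?_⟩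
  intro U hU
  by_contra hcon
  push Not at hcon
  -- all zero
  set m := U/2^K + 3 with hm
  have hp : 0 < 2^K := by positivity
  have hm1 : 2^K*m ≤ U + 3*2^K := by
    have := Nat.mul_div_le U (2^K)
    rw [hm, mul_add]; omega
  have hm2 : U + 2*2^K < 2^K*m := by
    have h3 := Nat.div_add_mod U (2^K)
    have h4 := Nat.mod_lt U hp
    rw [hm, mul_add]; omega
  have hrun : ∀ i, ∀ u', U + 2^(i+1) ≤ 2^i*u' → 2^i*u' ≤ U + 3*2^K → X D (J+i) u' = 0 := by
    intro i
    induction i with
    | zero =>
      intro u' h3 h4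
      simp only [Nat.zero_add, pow_one, pow_zero, one_mul] at h3 h4
      exact hcon u' (by omega) h4
    | succ i ih =>
      intro u' h3 h4
      have hpi : 0 < 2^i := by positivity
      have p1 : 2^(i+1) = 2*2^i := by ring
      have p2 : 2^(i+1+1) = 4*2^i := by ring
      have hu' : 1 ≤ u' := by
        rcases Nat.eq_zero_or_pos u' with rfl | h
        · simp at h3
        · exact h
      have e1 := X_even D (J+i) u' hu'
      have q1 : 2^i*(2*u') = 2^(i+1)*u' := by rw [p1]; ring
      have q2 : 2^i*(2*u'-1) = 2^(i+1)*u' - 2^i := by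
        rw [Nat.mul_sub, q1, mul_one]
      rw [ih (2*u') (by rw [q1]; omega) (by rw [q1]; exact h4),
        ih (2*u'-1) (by rw [q2]; omega) (by rw [q2]; omega), zero_add] at e1
      exact e1.symm
  have hmpos : 0 < m := by rw [hm]; exact Nat.succ_pos _
  obtain ⟨j, hj, hne⟩ := hK (2^J*m) (Nat.mul_pos (by positivity) hmpos)
  apply hne
  rcases Nat.lt_or_ge j J with hlt | hge
  · -- low levels
    have e1 : 2^(K-j)*(2^J*m) = 2^(J-j)*(2^K*m) := by
      rw [← mul_assoc, ← mul_assoc, ← pow_add, ← pow_add]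
      congr 2; omega
    rw [e1]
    obtain ⟨u, hu⟩ : ∃ u, 2^K*m = u + 1 := ⟨2^K*m - 1, by omega⟩
    have hng : ¬ GG J D u := by
      have := run_notG h2 hJ hU (t := 2^K*m) (fun w h3 h4 => hcon w h3 (by omega)) (u - U) (by omega)
      rw [show U + (u - U) = u by omega] at this
      exact this
    rw [hu, notG_next h2 hJ hng j hlt.le, ← hu]
    exact hcon _ (by omega) hm1
  · obtain ⟨i, rfl⟩ := Nat.exists_eq_add_of_le hge
    have e1 : 2^(K-(J+i))*(2^J*m) = 2^(K-i)*m := by
      rw [← mul_assoc, ← pow_add]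
      congr 2; omega
    rw [e1]
    have hiK : 2^(i+1) ≤ 2*2^K := by
      rw [pow_succ, mul_comm]
      exact Nat.mul_le_mul_left 2 (Nat.pow_le_pow_right (by norm_num) (by omega))
    have e2 : 2^i*(2^(K-i)*m) = 2^K*m := by
      rw [← mul_assoc, ← pow_add]; congr 2; omega
    apply hrun i
    · rw [e2]; omega
    · rw [e2]; exact hm1

open Classical in
theorem density (h2 : (2:F) ≠ 0) {N J : ℕ} (hJ : 4 ≤ J) (hJN : N + 6 ≤ 2^J) (hN : Hyp F N)
    (D : ℕ → F) (hD : ¬ Lim1 D (fun _ => 0)) :
    ∃ R, ∀ U, U ≤ 4 * ((range U).filter (fun u => GG J D u)).card + R := by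
  classical
  obtain ⟨R, hR⟩ := run_bounded h2 hJ hD
  refine ⟨R, ?_⟩
  set cnt : ℕ → ℕ := fun U => ((range U).filter (fun u => GG J D u)).card with hcnt
  have cnt_mono : ∀ U U', U ≤ U' → cnt U ≤ cnt U' := by
    intro U U' h
    apply Finset.card_le_card
    apply Finset.filter_subset_filter
    exact Finset.range_subset_range.mpr h
  have cnt_succ : ∀ U, GG J D U → cnt (U+1) = cnt U + 1 := by
    intro U h
    simp only [hcnt]
    rw [Finset.range_add_one, Finset.filter_insert, if_pos h, Finset.card_insert_of_notMem]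
    simp
  have cnt_add : ∀ V t, V ≤ t → ∀ b, (∀ b', b' < b → GG J D (t+b')) → cnt V + b ≤ cnt (t+b) := by
    intro V t hVt b
    induction b with
    | zero => intro _; exact cnt_mono _ _ hVt
    | succ b ih =>
      intro h
      have h1 := ih (fun b' hb' => h b' (by omega))
      have h2 := cnt_succ (t+b) (h b (by omega))
      rw [← Nat.add_assoc t b 1, h2]
      omega
  have key : ∀ n, ∃ V, n ≤ V ∧ V ≤ 4 * cnt V ∧ ∀ U, U ≤ V → U ≤ 4 * cnt U + R := by
    intro n
    induction n with
    | zero => exact ⟨0, le_rfl, Nat.zero_le _, fun U hU => by omega⟩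
    | succ n ih =>
      obtain ⟨V, hnV, hV, hall⟩ := ih
      by_cases hG : GG J D V
      · refine ⟨V+1, by omega, ?_, ?_⟩
        · rw [cnt_succ V hG]; omega
        · intro U hU
          rcases Nat.lt_or_ge V U with h | h
          · have : U = V + 1 := by omega
            rw [this, cnt_succ V hG]; omega
          · exact hall U h
      · -- window
        have hex : ∃ t, V < t ∧ X D J t ≠ 0 := by
          obtain ⟨t, h1, _, h3⟩ := hR V hG
          exact ⟨t, h1, h3⟩
        obtain ⟨t, htV, htR, htne, htmin⟩ : ∃ t, V < t ∧ t ≤ V + R ∧ X D J t ≠ 0 ∧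
            ∀ u, V < u → u < t → X D J u = 0 := by
          refine ⟨Nat.find hex, (Nat.find_spec hex).1, ?_, (Nat.find_spec hex).2, ?_⟩
          · obtain ⟨t, h1, h2, h3⟩ := hR V hG
            exact (Nat.find_min' hex ⟨h1, h3⟩).trans h2
          · intro u h1 h2
            have := Nat.find_min hex h2
            by_contra hcon
            exact this ⟨h1, hcon⟩
        obtain ⟨ℓ, rfl⟩ : ∃ ℓ, t = V + ℓ := ⟨t - V, by omega⟩
        have hsh : ∀ i n, X (fun j => D (J+j)) i n = X D (J+i) n := fun i n => X_shift D J n i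
        obtain ⟨i, hi1, hi2, hi3⟩ := exit2 ℓ (fun j => D (J+j)) V (by omega) (by
          intro u h3 h4
          rw [hsh]
          exact htmin u h3 h4) (by
          rw [hsh]; exact htne)
        obtain ⟨m, hm⟩ := hi2
        have hGb : ∀ b, b < 2^i → GG J D (V + ℓ + b) := by
          intro b hb
          set δ' : F := X D J (V+ℓ) with hδ'
          -- states
          have hst : ∀ j, j ≤ J + i → X D j (2^(J+i-j)*m) = δ' := by
            intro j hj
            rcases Nat.lt_or_ge j J with hlt | hge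
            · have e1 : 2^(J+i-j)*m = 2^(J-j)*(V+ℓ) := by
                rw [hm, ← mul_assoc, ← pow_add]; congr 2; omega
              rw [e1]
              obtain ⟨u, hu⟩ : ∃ u, V + ℓ = u + 1 := ⟨V+ℓ-1, by omega⟩
              have hng : ¬ GG J D u := by
                have := run_notG h2 hJ hG htmin (u - V) (by omega)
                rw [show V + (u - V) = u by omega] at this
                exact this
              rw [hu, notG_next h2 hJ hng j hlt.le, ← hu]
            · obtain ⟨i', rfl⟩ := Nat.exists_eq_add_of_le hge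
              have h5 := hi3 i' (by omega)
              rw [hsh, hsh] at h5
              rw [hδ', show J = J + 0 by rfl, ← h5]
              rw [Nat.add_zero]
              congr 1
              rw [hm]
              have : 2^i = 2^i' * 2^(i-i') := by rw [← pow_add]; congr 1; omega
              rw [this, mul_assoc, Nat.mul_div_cancel_left _ (by positivity)]
              congr 2
              omega
          have hb2 : 2^J*b + 2^J ≤ 2^(J+i) := by
            have : 2^J*b + 2^J = 2^J*(b+1) := by ring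
            rw [this, pow_add]
            exact Nat.mul_le_mul_left _ (by omega)
          set n' := 4*((N+1)/4)+2 with hn'
          have hn'lt : n' < 2^J := by omega
          have hblock := X_block D (fun _ => δ') 0 (J+i) m (by
            intro j hj
            rw [Nat.zero_add]
            exact hst j hj) (2^J*b+n') 0 (Nat.zero_le _) (by
            rw [Nat.sub_zero]; omega)
          rw [X_const, Nat.add_zero, Nat.sub_zero] at hblock
          refine ⟨n', hn'lt, by omega, ?_⟩
          have e3 : 2^J*(V+ℓ+b)+n' = 2^(J+i)*m + (2^J*b+n') := by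
            rw [hm, pow_add]; ring
          rw [e3, hblock]
          apply mul_ne_zero htne
          apply hN
          · omega
          · obtain ⟨q, hq⟩ : ∃ q, 2^J = 4*q := by
              refine ⟨2^(J-2), ?_⟩
              rw [show (4:ℕ) = 2^2 by norm_num, ← pow_add]; congr 1; omega
            rw [hq, mul_assoc]; omega
        have hcV' := cnt_add V (V+ℓ) (by omega) (2^i) hGb
        have hp : 0 < 2^i := by positivity
        refine ⟨V + ℓ + 2^i, by omega, by omega, ?_⟩
        intro U hU
        rcases Nat.lt_or_ge V U with h | h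
        · rcases Nat.lt_or_ge (V+ℓ) U with h' | h'
          · obtain ⟨b, rfl⟩ : ∃ b, U = V + ℓ + b := ⟨U - (V+ℓ), by omega⟩
            have h6 := cnt_add V (V+ℓ) (by omega) b (fun b' hb' => hGb b' (by omega))
            omega
          · have h6 := cnt_mono V U h.le
            omega
        · exact hall U h
  intro U
  obtain ⟨V, hUV, _, hall⟩ := key U
  exact hall U hUV

end Density

end Pool.Agent.TH76.BinPart
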