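import Mathlib
import Pool.Agent.TH76.BinPart.Basic

/-!
# `m ↦ a(2^K m)` is never `m ↦ a(2^(K+P) m)` (odd characteristic)
-/

namespace Pool.Agent.TH76.BinPart

open Finset

set_option linter.unusedSectionVars false

section Poly
variable {F : Type*} [Field F]

open PowerSeries in
/-- even part -/
noncomputable def Ev (f : PowerSeries F) : PowerSeries F := PowerSeries.mk (fun n => coeff (2*n) f)

open PowerSeries in
/-- substitution `z ↦ z²` -/
noncomputable def E2 (g : PowerSeries F) : PowerSeries F :=
  PowerSeries.mk (fun n => if n % 2 = 0 then coeff (n/2) g else 0)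

/-- generating series -/
noncomputable def AA (F : Type*) [Field F] : PowerSeries F := PowerSeries.mk (aa F)

open PowerSeries

theorem coeff_one_sub_X_mul (f : PowerSeries F) (n : ℕ) :
    coeff (n+1) ((1 - PowerSeries.X) * f) = coeff (n+1) f - coeff n f := by
  rw [sub_mul, one_mul, map_sub, coeff_succ_X_mul]

theorem AA_eq : (1 - PowerSeries.X) * AA F = (1 + PowerSeries.X) * E2 (AA F) := by
  ext n
  cases n with
  | zero =>
    simp [AA, E2, coeff_mk, aa_zero]
  | succ n =>
    rw [coeff_one_sub_X_mul, add_mul, one_mul, map_add, coeff_succ_X_mul]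
    simp only [AA, E2, coeff_mk]
    rcases Nat.even_or_odd n with ⟨q, hq⟩ | ⟨q, hq⟩
    · have h1 : ¬ ((n+1) % 2 = 0) := by omega
      have h2 : n % 2 = 0 := by omega
      rw [if_neg h1, if_pos h2, aa_succ, show (n+1)/2 = n/2 by omega]
      ring
    · have h1 : (n+1) % 2 = 0 := by omega
      have h2 : ¬ (n % 2 = 0) := by omega
      rw [if_pos h1, if_neg h2, aa_succ]
      ring

theorem Ev_step (f : PowerSeries F) : Ev (f * (1 - PowerSeries.X^2)) = Ev f * (1 - PowerSeries.X) := by
  ext n
  rw [mul_comm (Ev f), mul_sub, mul_one]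
  cases n with
  | zero =>
    simp [Ev, coeff_mk]
  | succ n =>
    rw [coeff_one_sub_X_mul]
    simp only [Ev, coeff_mk, map_sub]
    rw [show 2*(n+1) = 2*n + 2 by ring, mul_comm f, coeff_X_pow_mul]

theorem Ev_pow (f : PowerSeries F) (k : ℕ) :
    Ev (f * (1 - PowerSeries.X^2)^k) = Ev f * (1 - PowerSeries.X)^k := by
  induction k with
  | zero => simp
  | succ k ih => rw [pow_succ, ← mul_assoc, Ev_step, ih, pow_succ, mul_assoc]

theorem Ev_mul (f g : PowerSeries F) : Ev (f * E2 g) = Ev f * g := by
  ext n
  simp only [Ev, coeff_mk]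
  rw [coeff_mul, coeff_mul]
  symm
  apply Finset.sum_bij_ne_zero (fun (x : ℕ × ℕ) _ _ => (2*x.1, 2*x.2))
  · intro x hx _
    have hx' : x.1 + x.2 = n := by simpa using hx
    have : 2*x.1 + 2*x.2 = 2*n := by omega
    simpa using this
  · intro x1 _ _ x2 _ _ h
    simp only [Prod.mk.injEq] at h
    ext <;> omega
  · intro y hy hne
    have hy' : y.1 + y.2 = 2*n := by simpa using hy
    have hpar : y.2 % 2 = 0 := by
      by_contra hcon
      apply hne
      simp only [E2, coeff_mk]
      rw [if_neg hcon, mul_zero]
    refine ⟨(y.1/2, y.2/2), ?_, ?_, ?_⟩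
    · have : y.1/2 + y.2/2 = n := by omega
      simpa using this
    · simp only [coeff_mk]
      simp only [E2, coeff_mk, hpar, if_true] at hne
      rw [show 2*(y.1/2) = y.1 by omega]
      exact hne
    · ext
      · simp only; omega
      · simp only; omega
  · intro x hx _
    simp only [E2, coeff_mk]
    rw [if_pos (by omega), show 2*x.2/2 = x.2 by omega]

/-- the numerator polynomials -/
theorem exists_num (h2 : (2:F) ≠ 0) (K : ℕ) : ∃ N : Polynomial F, N.eval 1 ≠ 0 ∧
    (1 - PowerSeries.X)^K * PowerSeries.mk (fun m => aa F (2^K*m)) = (N : PowerSeries F) * AA F := by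
  induction K with
  | zero =>
    refine ⟨1, by simp, ?_⟩
    simp [AA]
  | succ K ih =>
    obtain ⟨N, hN1, hN⟩ := ih
    set f : PowerSeries F := PowerSeries.mk (fun m => aa F (2^K*m)) with hf
    let q : Polynomial F := (1 + Polynomial.X)^(K+2) * N
    let N' : Polynomial F := ∑ i ∈ range (q.natDegree + 1), Polynomial.C (q.coeff (2*i)) * Polynomial.X^i
    have hcoeff : ∀ n, N'.coeff n = q.coeff (2*n) := by
      intro n
      simp only [N', Polynomial.finsetSum_coeff, Polynomial.coeff_C_mul, Polynomial.coeff_X_pow]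
      rw [Finset.sum_eq_single n]
      · simp
      · intro b _ hb
        rw [if_neg (Ne.symm hb), mul_zero]
      · intro hn
        rw [Finset.mem_range, not_lt] at hn
        rw [Polynomial.coeff_eq_zero_of_natDegree_lt (by omega), zero_mul]
    have hEvq : Ev ((q : PowerSeries F)) = (N' : PowerSeries F) := by
      ext n
      simp only [Ev, coeff_mk, Polynomial.coeff_coe]
      rw [hcoeff]
    have hEvf : Ev f = PowerSeries.mk (fun m => aa F (2^(K+1)*m)) := by
      ext n
      simp only [Ev, hf, coeff_mk]
      congr 1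
      ring
    refine ⟨N', ?_, ?_⟩
    · -- evaluation
      have e1 : q.eval 1 = 2^(K+2) * N.eval 1 := by
        simp only [q, Polynomial.eval_mul, Polynomial.eval_pow, Polynomial.eval_add,
          Polynomial.eval_one, Polynomial.eval_X]
        norm_num
      have e2 : q.eval (-1) = 0 := by
        simp only [q, Polynomial.eval_mul, Polynomial.eval_pow, Polynomial.eval_add,
          Polynomial.eval_one, Polynomial.eval_X]
        simp
      have e3 : N'.eval 1 = ∑ i ∈ range (q.natDegree + 1), q.coeff (2*i) := by
        simp only [N', Polynomial.eval_finsetSum, Polynomial.eval_mul, Polynomial.eval_C,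
          Polynomial.eval_pow, Polynomial.eval_X, one_pow, mul_one]
      have hdeg : q.natDegree < 2*(q.natDegree+1) := by omega
      have e4 : q.eval 1 + q.eval (-1) = 2 * ∑ i ∈ range (q.natDegree + 1), q.coeff (2*i) := by
        rw [Polynomial.eval_eq_sum_range' hdeg, Polynomial.eval_eq_sum_range' hdeg,
          ← Finset.sum_add_distrib]
        have : ∀ M : ℕ, ∑ i ∈ range (2*M), (q.coeff i * 1^i + q.coeff i * (-1)^i)
            = 2 * ∑ i ∈ range M, q.coeff (2*i) := by
          intro M
          induction M with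
          | zero => simp
          | succ M ih =>
            rw [show 2*(M+1) = 2*M+1+1 by ring, Finset.sum_range_succ, Finset.sum_range_succ, ih,
              Finset.sum_range_succ]
            have o1 : (-1:F)^(2*M) = 1 := by rw [pow_mul]; simp
            have o2 : (-1:F)^(2*M+1) = -1 := by rw [pow_succ, o1]; ring
            rw [o1, o2]
            ring
        exact this _
      rw [e1, e2, add_zero, ← e3] at e4
      intro h0
      rw [h0, mul_zero] at e4
      have : (2:F)^(K+2) * N.eval 1 ≠ 0 := mul_ne_zero (pow_ne_zero _ h2) hN1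
      exact this e4
    · have key : f * (1 - PowerSeries.X^2)^(K+1) = (q : PowerSeries F) * E2 (AA F) := by
        have hq : (q : PowerSeries F) = (1 + PowerSeries.X)^(K+2) * (N : PowerSeries F) := by
          simp [q]
        have hfac : (1 - (PowerSeries.X : PowerSeries F)^2) = (1 + PowerSeries.X) * (1 - PowerSeries.X) := by ring
        rw [hfac, hq]
        calc f * ((1 + PowerSeries.X) * (1 - PowerSeries.X))^(K+1)
            = (1 + PowerSeries.X)^(K+1) * (1 - PowerSeries.X) * ((1 - PowerSeries.X)^K * f) := by
              rw [mul_pow, pow_succ (1 - PowerSeries.X) K]; ring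
          _ = (1 + PowerSeries.X)^(K+1) * (1 - PowerSeries.X) * ((N : PowerSeries F) * AA F) := by rw [hN]
          _ = (1 + PowerSeries.X)^(K+1) * (N : PowerSeries F) * ((1 - PowerSeries.X) * AA F) := by ring
          _ = (1 + PowerSeries.X)^(K+1) * (N : PowerSeries F) * ((1 + PowerSeries.X) * E2 (AA F)) := by
              rw [AA_eq]
          _ = _ := by ring
      have := congrArg Ev key
      rw [Ev_pow, Ev_mul, hEvf, hEvq] at this
      rw [mul_comm]
      exact this

theorem not_eventually_periodic_levels (h2 : (2:F) ≠ 0) (K P : ℕ) (hP : 1 ≤ P)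
    (h : ∀ m, 1 ≤ m → aa F (2^(K+P)*m) = aa F (2^K*m)) : False := by
  obtain ⟨N1, _, hN1⟩ := exists_num h2 K
  obtain ⟨N2, hN2e, hN2⟩ := exists_num h2 (K+P)
  have heq : (PowerSeries.mk (fun m => aa F (2^(K+P)*m))) = PowerSeries.mk (fun m => aa F (2^K*m)) := by
    ext m
    simp only [coeff_mk]
    rcases Nat.eq_zero_or_pos m with rfl | hm
    · simp
    · exact h m hm
  rw [heq, pow_add] at hN2
  have h3 : (N2 : PowerSeries F) * AA F = ((1 - PowerSeries.X)^P * (N1 : PowerSeries F)) * AA F := by
    rw [← hN2, mul_assoc ((1 - PowerSeries.X)^P), ← hN1]; ring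
  have hA : AA F ≠ 0 := by
    intro h0
    have := congrArg (coeff 0) h0
    simp [AA, aa_zero] at this
  have h4 := mul_right_cancel₀ hA h3
  have h5 : N2 = (1 - Polynomial.X)^P * N1 := by
    apply Polynomial.coe_injective (R := F)
    rw [h4]
    simp
  apply hN2e
  rw [h5]
  simp only [Polynomial.eval_mul, Polynomial.eval_pow, Polynomial.eval_sub, Polynomial.eval_one,
    Polynomial.eval_X, sub_self]
  rw [zero_pow (by omega), zero_mul]

end Poly

end Pool.Agent.TH76.BinPart
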