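import Mathlib
import Pool.Agent.TH76.BinPart.Special
import Pool.Agent.TH76.BinPart.Poly

/-!
# The terminal lemma: `a(n)` cannot eventually be a linear combination of a level of a
minimal tuple
-/

namespace Pool.Agent.TH76.BinPart

open Finset

set_option linter.unusedSectionVars false

section Terminal
variable {F : Type*} [Field F] [Finite F]

/-- translation in coordinate zero -/
theorem Lim1.translate {x y : ℕ → F} (h : Lim1 x y) (c : F) :
    Lim1 (fun j => x j + if j = 0 then c else 0) (fun j => y j + if j = 0 then c else 0) := by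
  rw [lim1_iff] at h ⊢
  intro K
  obtain ⟨m, hm, h1⟩ := h K
  refine ⟨m, hm, ?_⟩
  intro j hj
  rw [X_add, h1 j hj]
  congr 1
  rcases Nat.eq_zero_or_pos j with rfl | hj0
  · rw [X_delta, if_pos rfl]
  · rw [X_delta' _ _ _ hj0, if_neg (by omega)]

theorem periodic_of_backward {L : ℕ} (z : ℕ → F)
    (hdet : ∀ j j', (∀ i, 1 ≤ i → i ≤ L → z (j+i) = z (j'+i)) → z j = z j') :
    ∀ j, z (j + (Nat.card (Fin L → F)).factorial) = z j := by
  classical
  haveI := Fintype.ofFinite F
  set M := Nat.card (Fin L → F) with hM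
  have hMcard : Fintype.card (Fin L → F) = M := by rw [hM, Nat.card_eq_fintype_card]
  have back1 : ∀ j j', (∀ i, 1 ≤ i → i ≤ L → z (j+1+i) = z (j'+1+i)) →
      (∀ i, 1 ≤ i → i ≤ L → z (j+i) = z (j'+i)) := by
    intro j j' h i hi hiL
    rcases Nat.lt_or_ge 1 i with h1 | h1
    · have := h (i-1) (by omega) (by omega)
      rw [show j+1+(i-1) = j+i by omega, show j'+1+(i-1) = j'+i by omega] at this
      exact this
    · have : i = 1 := by omega
      subst this
      exact hdet (j+1) (j'+1) h
  have back : ∀ t j j', (∀ i, 1 ≤ i → i ≤ L → z (j+t+i) = z (j'+t+i)) →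
      (∀ i, 1 ≤ i → i ≤ L → z (j+i) = z (j'+i)) := by
    intro t
    induction t with
    | zero => intro j j' h; exact h
    | succ t ih =>
      intro j j' h
      apply back1
      apply ih
      intro i hi hiL
      have := h i hi hiL
      rw [show j+1+t+i = j+(t+1)+i by omega, show j'+1+t+i = j'+(t+1)+i by omega]
      exact this
  have hd : ∀ j, ∃ d, 1 ≤ d ∧ d ≤ M ∧ (∀ i, 1 ≤ i → i ≤ L → z (j+i) = z (j+d+i)) := by
    intro j
    obtain ⟨a, b, hab, hf⟩ := Fintype.exists_ne_map_eq_of_card_lt
      (fun (a : Fin (M+1)) => (fun i : Fin L => z (j + a.1 + (i.1+1)))) (by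
        rw [hMcard, Fintype.card_fin]; omega)
    have main : ∀ a b : Fin (M+1), a.1 < b.1 →
        (fun i : Fin L => z (j + a.1 + (i.1+1))) = (fun i : Fin L => z (j + b.1 + (i.1+1))) →
        ∃ d, 1 ≤ d ∧ d ≤ M ∧ (∀ i, 1 ≤ i → i ≤ L → z (j+i) = z (j+d+i)) := by
      intro a b hlt hf
      refine ⟨b.1 - a.1, by omega, by have := b.2; omega, ?_⟩
      apply back a.1
      intro i hi hiL
      have := congrFun hf ⟨i-1, by omega⟩
      simp only at this
      rw [show j + a.1 + (i-1+1) = j + a.1 + i by omega,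
        show j + b.1 + (i-1+1) = j + (b.1-a.1) + a.1 + i by omega] at this
      exact this
    have hne : a.1 ≠ b.1 := fun h => hab (Fin.ext h)
    rcases lt_or_gt_of_ne hne with h | h
    · exact main a b h hf
    · exact main b a h hf.symm
  intro i
  obtain ⟨d, hd1, hdM, hag⟩ := hd (i + M.factorial)
  have hstep : ∀ i', i' ≤ i + M.factorial → z i' = z (i'+d) := by
    intro i' hi'
    apply hdet
    apply back (i + M.factorial - i')
    intro l hl hlL
    rw [show i' + (i + M.factorial - i') + l = i + M.factorial + l by omega,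
      show i' + d + (i + M.factorial - i') + l = i + M.factorial + d + l by omega]
    exact hag l hl hlL
  obtain ⟨q, hq⟩ : d ∣ M.factorial := Nat.dvd_factorial hd1 hdM
  have : ∀ t, t ≤ q → z (i + d*t) = z i := by
    intro t
    induction t with
    | zero => intro _; simp
    | succ t ih =>
      intro ht
      rw [← ih (by omega)]
      have h1 := hstep (i + d*t) (by
        rw [hq]
        have : d*t ≤ d*q := Nat.mul_le_mul_left _ (by omega)
        omega)
      rw [h1]
      congr 1
      ring
  rw [hq]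
  exact this q le_rfl

theorem terminal (h2 : (2:F) ≠ 0) (hsurj : ∀ x : F, ∃ n : ℕ, (n:F) = x) {N : ℕ} (hN : Hyp F N)
    {k : ℕ} {v : ℕ → ℕ → F} (hmin : Min k v) (e : ℕ → F) (K m : ℕ)
    (h : ∀ u, m ≤ u → aa F u = ∑ i ∈ range k, e i * X (v i) K u) : False := by
  classical
  set ρ : ℕ → F := fun j => dot k e v (K+j) with hρ
  set m0 := max m 1 with hm0
  have hXρ : ∀ j u, X ρ j u = ∑ i ∈ range k, e i * X (v i) (K+j) u := by
    intro j u
    rw [hρ, X_shift, X_dot]
  -- F0
  have F0 : ∀ j u, m0 ≤ u → X ρ j u = aa F u := by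
    intro j
    induction j with
    | zero =>
      intro u hu
      rw [hXρ, h u (by omega)]
      rfl
    | succ j ih =>
      intro u hu
      have hu1 : 1 ≤ u := by omega
      have e1 := X_even ρ j u hu1
      have e2 := aa_even (F := F) u hu1
      rw [ih (2*u) (by omega), ih (2*u-1) (by omega), e2] at e1
      exact (add_left_cancel e1).symm
  -- F1
  have F1 : ∀ z, Lim1 (fun _ => (1:F)) z → Lim1 ρ z := by
    intro z hz
    rw [lim1_iff] at hz ⊢
    intro K'
    obtain ⟨m'', hm'', h1⟩ := hz (K' + m0)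
    refine ⟨2^m0*m'', Nat.mul_pos (by positivity) hm'', ?_⟩
    intro j hj
    have h2' := h1 j (by omega)
    rw [X_one] at h2'
    have e1 : 2^(K'-j)*(2^m0*m'') = 2^(K'+m0-j)*m'' := by
      rw [← mul_assoc, ← pow_add]; congr 2; omega
    rw [e1, F0 j _ ?_, h2']
    have : m0 < 2^m0 := Nat.lt_two_pow_self
    have h3 : 2^m0 ≤ 2^(K'+m0-j) := Nat.pow_le_pow_right (by norm_num) (by omega)
    have h4 : 2^(K'+m0-j) ≤ 2^(K'+m0-j)*m'' := Nat.le_mul_of_pos_right _ (by omega)
    omega
  have F1' : ∀ z, Lim1 (fun _ => (1:F)) z → Lim1 z ρ := by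
    intro z hz
    have hz' := F1 z hz
    rw [lim1_iff] at hz'
    obtain ⟨t, ht, hQ⟩ := lim_exists k v
      (fun K' w => ∀ j, K + j ≤ K' → ∑ i ∈ range k, e i * w i (K+j) = z j) (by
        intro K' w w' hww' hw j hj
        rw [← hw j hj]
        apply Finset.sum_congr rfl
        intro i hi
        rw [hww' i (Finset.mem_range.mp hi) (K+j) hj]) (by
        intro K' w hw j hj
        exact hw j (by omega)) (by
        intro K'
        rcases Nat.lt_or_ge K' K with hlt | hge
        · exact ⟨1, le_rfl, fun j hj => by omega⟩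
        · obtain ⟨K'', rfl⟩ : ∃ K'', K' = K + K'' := ⟨K' - K, by omega⟩
          obtain ⟨m', hm', h1⟩ := hz' K''
          refine ⟨m', hm', ?_⟩
          intro j hj
          rw [← h1 j (by omega), hXρ]
          apply Finset.sum_congr rfl
          intro i hi
          simp only [st]
          rw [show K + K'' - (K+j) = K'' - j by omega])
    have h3 := (hmin t ht).dot e
    have h4 : Lim1 (fun j => dot k e t (K+j)) (fun j => dot k e v (K+j)) := h3.shift K
    have h5 : (fun j => dot k e t (K+j)) = z := by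
      funext j
      exact hQ (K+j) j le_rfl
    rw [h5] at h4
    exact h4
  have Amin : ∀ z z', Lim1 (fun _ => (1:F)) z → Lim1 (fun _ => (1:F)) z' → Lim1 z z' := by
    intro z z' hz hz'
    exact (F1' z hz).trans (F1 z' hz')
  have Ashift : ∀ z s, Lim1 (fun _ => (1:F)) z → Lim1 (fun _ => (1:F)) (fun j => z (s+j)) := by
    intro z s hz
    exact hz.shift s
  -- F4
  have F4 : ∀ z z', Lim1 (fun _ => (1:F)) z → Lim1 (fun _ => (1:F)) z' →
      (∀ j, 1 ≤ j → z j = z' j) → z 0 = z' 0 := by
    intro z z' hz hz' heq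
    by_contra hne
    set c := z' 0 - z 0 with hc
    have hc0 : c ≠ 0 := sub_ne_zero.mpr (Ne.symm hne)
    have hz'eq : z' = fun j => z j + if j = 0 then c else 0 := by
      funext j
      rcases Nat.eq_zero_or_pos j with rfl | hj
      · simp [hc]
      · rw [if_neg (by omega), add_zero, heq j hj]
    have h1 : Lim1 z (fun j => z j + if j = 0 then c else 0) := by
      rw [← hz'eq]; exact Amin z z' hz hz'
    have hall : ∀ n : ℕ, Lim1 (fun _ => (1:F)) (fun j => z j + if j = 0 then (n:F)*c else 0) := by
      intro n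
      induction n with
      | zero => simpa using hz
      | succ n ih =>
        have h3 := h1.translate ((n:F)*c)
        have h4 := Lim.trans ih h3
        have : (fun j => (z j + if j = 0 then c else 0) + if j = 0 then (n:F)*c else 0)
            = (fun j => z j + if j = 0 then ((n+1:ℕ):F)*c else 0) := by
          funext j
          by_cases hj : j = 0
          · simp only [hj, if_true]; push_cast; ring
          · simp [hj]
        rw [← this]
        exact h4
    obtain ⟨n, hn⟩ := hsurj (-(X z 0 2)/c)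
    have hom := hN.om (hall n) 0 2 (by norm_num)
    apply hom
    rw [X_add, X_delta, hn]
    field_simp
    ring
  -- F5
  have F5 : ∃ L, ∀ z z', Lim1 (fun _ => (1:F)) z → Lim1 (fun _ => (1:F)) z' →
      (∀ j, 1 ≤ j → j ≤ L → z j = z' j) → z 0 = z' 0 := by
    by_contra hcon
    push Not at hcon
    obtain ⟨w, z, hw, hz, hQ⟩ := lim_exists₂ 1 (fun _ _ => (1:F))
      (fun K w z => w 0 0 ≠ z 0 0 ∧ ∀ j, 1 ≤ j → j ≤ K → w 0 j = z 0 j) (by
        rintro K w w' z z' hw hz ⟨h1, h2⟩
        refine ⟨?_, ?_⟩
        · rw [← hw 0 (by norm_num) 0 (by omega), ← hz 0 (by norm_num) 0 (by omega)]; exact h1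
        · intro j hj hjK
          rw [← hw 0 (by norm_num) j hjK, ← hz 0 (by norm_num) j hjK]; exact h2 j hj hjK) (by
        rintro K w z ⟨h1, h2⟩
        exact ⟨h1, fun j hj hjK => h2 j hj (by omega)⟩) (by
        intro K
        obtain ⟨z, z', hz, hz', h1, h2⟩ := hcon K
        rw [lim1_iff] at hz hz'
        obtain ⟨m, hm, h3⟩ := hz K
        obtain ⟨m', hm', h4⟩ := hz' K
        refine ⟨m, m', hm, hm', ?_, ?_⟩
        · simp only [st]
          rw [h3 0 (by omega), h4 0 (by omega)]
          exact h2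
        · intro j hj hjK
          simp only [st]
          rw [h3 j hjK, h4 j hjK]
          exact h1 j hj hjK)
    apply (hQ 0).1
    apply F4 (w 0) (z 0) (hw.coord 0 (by norm_num)) (hz.coord 0 (by norm_num))
    intro j hj
    exact (hQ j).2 j hj le_rfl
  obtain ⟨L, hL⟩ := F5
  -- F6
  set P := (Nat.card (Fin L → F)).factorial with hP
  have hP1 : 1 ≤ P := Nat.factorial_pos _
  have F6 : ∀ z, Lim1 (fun _ => (1:F)) z → ∀ j, z (j+P) = z j := by
    intro z hz
    apply periodic_of_backward
    intro j j' hjj'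
    have := hL (fun i => z (j+i)) (fun i => z (j'+i)) (Ashift z j hz) (Ashift z j' hz) hjj'
    simpa using this
  -- F7
  have F7 : ∃ K0, ∀ m, 1 ≤ m → aa F (2^(K0+P)*m) = aa F (2^K0*m) := by
    by_contra hcon
    push Not at hcon
    obtain ⟨w, hw, hQ⟩ := lim_exists 1 (fun _ _ => (1:F))
      (fun K w => P ≤ K → w 0 0 ≠ w 0 P) (by
        intro K w w' hww' hw hPK
        rw [← hww' 0 (by norm_num) 0 (by omega), ← hww' 0 (by norm_num) P hPK]
        exact hw hPK) (by
        intro K w hw hPK
        exact hw (by omega)) (by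
        intro K
        rcases Nat.lt_or_ge K P with hlt | hge
        · exact ⟨1, le_rfl, fun h => by omega⟩
        · obtain ⟨K0, rfl⟩ : ∃ K0, K = K0 + P := ⟨K - P, by omega⟩
          obtain ⟨m', hm', h1⟩ := hcon K0
          refine ⟨m', hm', ?_⟩
          intro _
          simp only [st]
          rw [X_one, X_one, Nat.sub_zero, show K0 + P - P = K0 by omega]
          exact h1)
    apply hQ P le_rfl
    have := F6 (w 0) (hw.coord 0 (by norm_num)) 0
    rw [Nat.zero_add] at this
    exact this.symm
  obtain ⟨K0, hK0⟩ := F7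
  exact not_eventually_periodic_levels h2 K0 P hP1 hK0

end Terminal

end Pool.Agent.TH76.BinPart
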