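import Mathlib
import Pool.Agent.TH76.BinPart.Terminal

/-!
# The extension step
-/

namespace Pool.Agent.TH76.BinPart

open Finset

set_option linter.unusedSectionVars false

section Defs
variable {F : Type*} [Field F]

/-- extended tuple -/
def ext (k : ℕ) (s : ℕ → ℕ → F) : ℕ → ℕ → F := fun i j => if i = k then 1 else s i j

/-- no linear relation -/
def Nondeg (k : ℕ) (v : ℕ → ℕ → F) : Prop :=
  ∀ e : ℕ → F, (∃ i, i < k ∧ e i ≠ 0) → dot k e v ≠ fun _ => 0

theorem Nondeg.lim {k : ℕ} {v w : ℕ → ℕ → F} (h : Nondeg k v) (hmin : Min k v)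
    (hw : Lim k v w) : Nondeg k w := by
  intro e he h0
  exact h e he (dot_zero_lim (hmin w hw) e h0)

theorem lim_addlast {k : ℕ} {x y : ℕ → ℕ → F} (h : Lim (k+1) x y) (c : ℕ → F) :
    Lim k (fun i j => x i j + c i * x k j) (fun i j => y i j + c i * y k j) := by
  intro K
  obtain ⟨m, hm, h1⟩ := h K
  refine ⟨m, hm, ?_⟩
  intro i hi j hj
  have e1 : X (fun j => x i j + c i * x k j) j (2^(K-j)*m)
      = X (x i) j (2^(K-j)*m) + c i * X (x k) j (2^(K-j)*m) := by
    rw [← X_smul, ← X_add]
  rw [e1, h1 i (by omega) j hj, h1 k (by omega) j hj]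

theorem lim_rankone {k : ℕ} {x y : ℕ → ℕ → F} (h : Lim k x y) (c e : ℕ → F) :
    Lim k (fun i j => x i j + c i * dot k e x j) (fun i j => y i j + c i * dot k e y j) := by
  intro K
  obtain ⟨m, hm, h1⟩ := h K
  refine ⟨m, hm, ?_⟩
  intro i hi j hj
  have e1 : X (fun j => x i j + c i * dot k e x j) j (2^(K-j)*m)
      = X (x i) j (2^(K-j)*m) + c i * X (dot k e x) j (2^(K-j)*m) := by
    rw [← X_smul, ← X_add]
  rw [e1, h1 i hi j hj, X_dot]
  congr 2
  exact Finset.sum_congr rfl (fun l hl => by rw [h1 l (Finset.mem_range.mp hl) j hj])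

theorem lim_setlast {k : ℕ} {x y : ℕ → ℕ → F} (h : Lim (k+1) x y) (e : ℕ → F) (c : F) :
    Lim (k+1) (fun i j => if i = k then dot k e x j + c * x k j else x i j)
      (fun i j => if i = k then dot k e y j + c * y k j else y i j) := by
  intro K
  obtain ⟨m, hm, h1⟩ := h K
  refine ⟨m, hm, ?_⟩
  intro i hi j hj
  by_cases hik : i = k
  · subst hik
    simp only [if_true]
    have e1 : X (fun j => dot i e x j + c * x i j) j (2^(K-j)*m)
        = X (dot i e x) j (2^(K-j)*m) + c * X (x i) j (2^(K-j)*m) := by
      rw [← X_smul, ← X_add]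
    rw [e1, h1 i hi j hj, X_dot]
    congr 1
    exact Finset.sum_congr rfl
      (fun l hl => by rw [h1 l (by have := Finset.mem_range.mp hl; omega) j hj])
  · simp only [hik, if_false]
    exact h1 i hi j hj

theorem exit_lemma (d : ℕ → F) (K m : ℕ) (h0 : ∀ j, j ≤ K → X d j (2^(K-j)*m) = 0)
    (u : ℕ) (hu : m < u) (hz : ∀ u', m ≤ u' → u' < u → X d K u' = 0) :
    ∀ j, j ≤ K → X d j (2^(K-j)*u) = X d K u := by
  have key : ∀ t j, j + t = K → (∀ n, 2^t*m ≤ n → n < 2^t*u → X d j n = 0) ∧
      X d j (2^t*u) = X d K u := by
    intro t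
    induction t with
    | zero =>
      intro j hj
      have : j = K := by omega
      subst this
      simp only [pow_zero, one_mul, and_true]
      exact hz
    | succ t ih =>
      intro j hj
      obtain ⟨ih1, ih2⟩ := ih (j+1) (by omega)
      have hp : 2^(t+1) = 2*2^t := by ring
      have hfirst : ∀ n, 2^(t+1)*m ≤ n → n < 2^(t+1)*u → X d j n = 0 := by
        intro n
        induction n with
        | zero =>
          intro hn _
          have h3 := h0 j (by omega)
          have : 2^(t+1)*m = 0 := by omega
          rw [show K - j = t+1 by omega, this] at h3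
          exact h3
        | succ n ihn =>
          intro hn1 hn2
          rcases Nat.lt_or_ge n (2^(t+1)*m) with hlt | hge
          · have h3 := h0 j (by omega)
            rw [show K - j = t+1 by omega] at h3
            rw [show n + 1 = 2^(t+1)*m by omega]
            exact h3
          · rw [X_succ, ihn hge (by omega), ih1 ((n+1)/2) ?_ ?_, add_zero]
            · rw [hp, mul_assoc] at hn1; omega
            · rw [hp, mul_assoc] at hn2; omega
      refine ⟨hfirst, ?_⟩
      have hpos : 2^(t+1)*m < 2^(t+1)*u := Nat.mul_lt_mul_of_pos_left hu (by positivity)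
      obtain ⟨n, hn⟩ : ∃ n, 2^(t+1)*u = n+1 := ⟨2^(t+1)*u - 1, by omega⟩
      rw [hn, X_succ, hfirst n (by omega) (by omega), zero_add]
      have : (n+1)/2 = 2^t*u := by
        rw [← hn, hp, mul_assoc]; omega
      rw [this]
      exact ih2
  intro j hj
  exact (key (K-j) j (by omega)).2

/-- the coefficient vectors of relations over `s` -/
def CC (k : ℕ) (s : ℕ → ℕ → F) : Set (ℕ → F) :=
  {e | (∀ i, k ≤ i → e i = 0) ∧ ∃ w, Lim (k+1) (ext k s) w ∧ ∀ j, w k j = dot k e w j}

theorem CC_finite [Finite F] (k : ℕ) (s : ℕ → ℕ → F) : (CC k s).Finite := by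
  apply Set.Finite.of_injOn (f := fun (e : ℕ → F) (i : Fin k) => e i)
    (Set.mapsTo_univ _ _) ?_ Set.finite_univ
  intro e he e' he' h
  funext i
  rcases Nat.lt_or_ge i k with hi | hi
  · exact congrFun h ⟨i, hi⟩
  · rw [he.1 i hi, he'.1 i hi]

theorem CC_ne_zero {N : ℕ} (hN : Hyp F N) {k : ℕ} {s : ℕ → ℕ → F} {e : ℕ → F}
    (he : e ∈ CC k s) : ∃ i, i < k ∧ e i ≠ 0 := by
  obtain ⟨_, w, hw, h1⟩ := he
  by_contra hcon
  push Not at hcon
  have hom : Om (w k) := by
    apply hN.om
    have := hw.coord k (by omega)
    have h2 : ext k s k = fun _ => (1:F) := by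
      funext j; simp [ext]
    rw [h2] at this
    exact this
  have h0 : w k = fun _ => 0 := by
    funext j
    rw [h1 j]
    unfold dot
    apply Finset.sum_eq_zero
    intro i hi
    rw [hcon i (Finset.mem_range.mp hi), zero_mul]
  apply hom 0 2 (by norm_num)
  rw [h0, X_zero_fun]

theorem ext_lim_restrict {k : ℕ} {s w : ℕ → ℕ → F} (h : Lim (k+1) (ext k s) w) : Lim k s w := by
  refine (h.mono (k' := k) (by omega)).congr ?_ (fun _ _ _ => rfl)
  intro i hi j
  simp only [ext]
  rw [if_neg (by omega)]

end Defs

section StepE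
variable {F : Type*} [Field F] [Finite F]

theorem stepE (h2 : (2:F) ≠ 0) (hsurj : ∀ x : F, ∃ n : ℕ, (n:F) = x) {N : ℕ} (hN : Hyp F N)
    {k : ℕ} (hk : 1 ≤ k) {v : ℕ → ℕ → F} (hmin : Min k v) (hnd : Nondeg k v) (h0 : Om (v 0)) :
    ∃ (s : ℕ → ℕ → F) (δ : ℕ → F) (w : ℕ → ℕ → F), Lim k v s ∧ (∃ i, i < k ∧ δ i ≠ 0) ∧
      Lim k v (fun i j => s i j + δ i) ∧ Lim (k+1) (ext k s) w ∧ Min (k+1) w ∧
      Nondeg (k+1) w := by
  classical
  by_contra hno
  have key : ∀ n : ℕ, ∀ (s : ℕ → ℕ → F) (δ : ℕ → F), Lim k v s → (∃ i, i < k ∧ δ i ≠ 0) →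
      Lim k v (fun i j => s i j + δ i) → (CC k s).ncard = n → False := by
    intro n
    induction n using Nat.strong_induction_on with
    | _ n ih =>
    intro s δ hs hδ hsδ hcard
    -- nonempty
    have hne : (CC k s).Nonempty := by
      obtain ⟨w0, hw0, hw0min⟩ := exists_min (k+1) (ext k s)
      have hw0v : Lim k v w0 := hs.trans (ext_lim_restrict hw0)
      have hw0nd : Nondeg k w0 := hnd.lim hmin hw0v
      have hdeg : ¬ Nondeg (k+1) w0 := by
        intro hnd'
        exact hno ⟨s, δ, w0, hs, hδ, hsδ, hw0, hw0min, hnd'⟩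
      unfold Nondeg at hdeg
      push Not at hdeg
      obtain ⟨e', ⟨i, hi, hei⟩, hdot⟩ := hdeg
      have hek : e' k ≠ 0 := by
        intro hek0
        have hik : i < k := by
          rcases Nat.lt_or_ge i k with h | h
          · exact h
          · exfalso
            have : i = k := by omega
            rw [this] at hei
            exact hei hek0
        apply hw0nd e' ⟨i, hik, hei⟩
        funext j
        have := congrFun hdot j
        simp only [dot] at this ⊢
        rw [Finset.sum_range_succ, hek0, zero_mul, add_zero] at this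
        exact this
      refine ⟨fun i => if i < k then -(e' i)/(e' k) else 0, ?_, w0, hw0, ?_⟩
      · intro i hi
        simp only
        rw [if_neg (by omega)]
      · intro j
        have h3 := congrFun hdot j
        simp only [dot] at h3 ⊢
        rw [Finset.sum_range_succ] at h3
        have h4 : ∑ x ∈ range k, (if x < k then -(e' x)/(e' k) else 0) * w0 x j
            = -(∑ x ∈ range k, e' x * w0 x j)/(e' k) := by
          rw [neg_div, Finset.sum_div, ← Finset.sum_neg_distrib]
          apply Finset.sum_congr rfl
          intro x hx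
          rw [if_pos (Finset.mem_range.mp hx)]
          ring
        rw [h4]
        field_simp
        linear_combination h3
    obtain ⟨e, he⟩ := hne
    have hene := CC_ne_zero hN he
    obtain ⟨hesupp, w0, hw0, hw0e⟩ := he
    -- d
    set d : ℕ → F := fun j => 1 + (-1) * dot k e s j with hd
    have hXd : ∀ j n, X d j n = X (ext k s k) j n - ∑ i ∈ range k, e i * X (ext k s i) j n := by
      intro j n
      have e1 : X d j n = X (fun _ => (1:F)) j n + (-1) * X (dot k e s) j n := by
        rw [← X_smul, ← X_add]
      have e2 : ext k s k = fun _ => (1:F) := by funext j; simp [ext]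
      have e3 : ∀ i ∈ range k, e i * X (ext k s i) j n = e i * X (s i) j n := by
        intro i hi
        have : ext k s i = s i := by
          funext j
          simp only [ext]
          rw [if_neg (by have := Finset.mem_range.mp hi; omega)]
        rw [this]
      rw [e1, e2, X_dot, Finset.sum_congr rfl e3]
      ring
    have hcentre : ∀ K, ∃ m, 1 ≤ m ∧ ∀ j, j ≤ K → X d j (2^(K-j)*m) = 0 := by
      intro K
      obtain ⟨m, hm, h1⟩ := hw0 K
      refine ⟨m, hm, ?_⟩
      intro j hj
      rw [hXd, h1 k (by omega) j hj, hw0e j]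
      rw [sub_eq_zero]
      unfold dot
      exact Finset.sum_congr rfl
        (fun l hl => by rw [h1 l (by have := Finset.mem_range.mp hl; omega) j hj])
    have hexit : ∀ K, ∃ m, 1 ≤ m ∧ ∃ δ' : F, δ' ≠ 0 ∧ ∀ j, j ≤ K → X d j (2^(K-j)*m) = δ' := by
      intro K
      obtain ⟨m, hm, h1⟩ := hcentre K
      have hex : ∃ u, m < u ∧ X d K u ≠ 0 := by
        by_contra hcon
        push Not at hcon
        refine terminal h2 hsurj hN (hmin.lim hs) e K m ?_
        intro u hu
        have hdu : X d K u = 0 := by
          rcases Nat.lt_or_ge m u with h | h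
          · exact hcon u h
          · have : u = m := by omega
            rw [this]
            have := h1 K le_rfl
            simpa using this
        have e1 : X d K u = X (fun _ => (1:F)) K u + (-1) * X (dot k e s) K u := by
          rw [← X_smul, ← X_add]
        rw [e1, X_one, X_dot] at hdu
        linear_combination hdu
      let u := Nat.find hex
      have hu := Nat.find_spec hex
      have hu' : ∀ u', m ≤ u' → u' < u → X d K u' = 0 := by
        intro u' h3 h4
        rcases Nat.lt_or_ge m u' with h | h
        · have := Nat.find_min hex h4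
          push Not at this
          exact this h
        · have : u' = m := by omega
          rw [this]
          have := h1 K le_rfl
          simpa using this
      refine ⟨u, by have := hu.1; omega, X d K u, hu.2, ?_⟩
      exact exit_lemma d K m h1 u hu.1 hu'
    -- the point w
    obtain ⟨w, hw, hQ⟩ := lim_exists (k+1) (ext k s)
      (fun K w => (w k 0 - dot k e w 0 ≠ 0) ∧
        ∀ j, j ≤ K → w k j - dot k e w j = w k 0 - dot k e w 0) (by
        rintro K w w' hww' ⟨h3, h4⟩
        have hd' : ∀ j, j ≤ K → w' k j - dot k e w' j = w k j - dot k e w j := by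
          intro j hj
          rw [hww' k (by omega) j hj]
          congr 1
          unfold dot
          exact Finset.sum_congr rfl
            (fun l hl => by rw [hww' l (by have := Finset.mem_range.mp hl; omega) j hj])
        refine ⟨?_, ?_⟩
        · rw [hd' 0 (by omega)]; exact h3
        · intro j hj
          rw [hd' j hj, hd' 0 (by omega)]
          exact h4 j hj) (by
        rintro K w ⟨h3, h4⟩
        exact ⟨h3, fun j hj => h4 j (by omega)⟩) (by
        intro K
        obtain ⟨m, hm, δ', hδ', h3⟩ := hexit K
        refine ⟨m, hm, ?_⟩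
        have h4 : ∀ j, j ≤ K → st (ext k s) K m k j - dot k e (st (ext k s) K m) j = δ' := by
          intro j hj
          rw [← h3 j hj, hXd]
          rfl
        refine ⟨?_, ?_⟩
        · rw [h4 0 (by omega)]; exact hδ'
        · intro j hj
          rw [h4 j hj, h4 0 (by omega)])
    set δ' : F := w k 0 - dot k e w 0 with hδ'
    have hδ'0 : δ' ≠ 0 := (hQ 0).1
    have hwk : ∀ j, w k j = dot k e w j + δ' := by
      intro j
      have := (hQ j).2 j le_rfl
      linear_combination this
    -- the linear map T
    set τ : F := ∑ i ∈ range k, e i * δ i with hτ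
    have hdotT : ∀ (y : ℕ → ℕ → F) (g : ℕ → F) (j : ℕ),
        dot k e (fun i j => y i j + δ i * g j) j = dot k e y j + τ * g j := by
      intro y g j
      simp only [dot, hτ]
      rw [Finset.sum_mul, ← Finset.sum_add_distrib]
      apply Finset.sum_congr rfl
      intro i _
      ring
    have hextk : ∀ j, ext k s k j = 1 := fun j => by simp [ext]
    have hTlim : ∀ y, Lim (k+1) (ext k s) y → Lim k v (fun i j => y i j + δ i * y k j) := by
      intro y hy
      refine hsδ.trans ((lim_addlast hy δ).congr ?_ (fun _ _ _ => rfl))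
      intro i hi j
      simp only [ext]
      rw [if_neg (by omega)]
      simp
    have hw0v : Lim k v w0 := hs.trans (ext_lim_restrict hw0)
    have hwv : Lim k v w := hs.trans (ext_lim_restrict hw)
    have hTw0 : Lim k v (fun i j => w0 i j + δ i * dot k e w0 j) := by
      refine (hTlim w0 hw0).congr (fun _ _ _ => rfl) ?_
      intro i _ j
      rw [hw0e j]
    have hτ1 : 1 + τ ≠ 0 := by
      intro hτ0
      apply (hnd.lim hmin hTw0) e hene
      funext j
      rw [hdotT]
      linear_combination (dot k e w0 j) * hτ0
    -- invariance under the inverse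
    have hinv : ∀ y, Lim k v y → Lim k v (fun i j => y i j + (-(δ i)/(1+τ)) * dot k e y j) := by
      intro y hy
      have h3 : Lim k (fun i j => w0 i j + δ i * dot k e w0 j) y := (hmin _ hTw0).trans hy
      have h4 := lim_rankone h3 (fun i => -(δ i)/(1+τ)) e
      refine hw0v.trans (h4.congr ?_ (fun _ _ _ => rfl))
      intro i _ j
      rw [hdotT w0 (fun j => dot k e w0 j) j]
      field_simp
      ring
    have hTw : Lim k v (fun i j => w i j + δ i * w k j) := hTlim w hw
    have hzs : Lim k v (fun i j => w i j + (δ i * δ'/(1+τ))) := by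
      refine (hinv _ hTw).congr (fun _ _ _ => rfl) ?_
      intro i _ j
      rw [hdotT w (fun j => w k j) j]
      rw [hwk j]
      field_simp
      ring
    obtain ⟨i0, hi0, hδi0⟩ := hδ
    have hdir : ∃ i, i < k ∧ (fun i => δ i * δ'/(1+τ)) i ≠ 0 :=
      ⟨i0, hi0, div_ne_zero (mul_ne_zero hδi0 hδ'0) hτ1⟩
    -- the injection
    have hinj : ∀ e1 ∈ CC k w, (fun i => e i + δ' * e1 i) ∈ CC k s := by
      rintro e1 ⟨he1, w1, hw1, hw1e⟩
      refine ⟨fun i hi => by simp only; rw [hesupp i hi, he1 i hi]; ring, ?_⟩
      refine ⟨fun i j => if i = k then dot k e w1 j + δ' * w1 k j else w1 i j, ?_, ?_⟩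
      · have h5 := lim_setlast hw1 e δ'
        refine hw.trans (h5.congr ?_ (fun _ _ _ => rfl))
        intro i hi j
        by_cases hik : i = k
        · subst hik
          simp only [if_true]
          rw [hwk j]
          have : dot i e (ext i w) j = dot i e w j := by
            unfold dot
            apply Finset.sum_congr rfl
            intro l hl
            simp only [ext]
            rw [if_neg (by have := Finset.mem_range.mp hl; omega)]
          rw [this]
          simp [ext]
        · simp only [hik, if_false, ext]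
      · intro j
        simp only [if_true]
        rw [hw1e j]
        simp only [dot]
        rw [Finset.mul_sum, ← Finset.sum_add_distrib]
        apply Finset.sum_congr rfl
        intro l hl
        rw [if_neg (by have := Finset.mem_range.mp hl; omega)]
        ring
    have hlt : (CC k w).ncard < (CC k s).ncard := by
      have himg : ((fun (e1 : ℕ → F) => (fun i => e i + δ' * e1 i)) '' (CC k w)).ncard
          = (CC k w).ncard := by
        apply Set.ncard_image_of_injective
        intro a b hab
        funext i
        have h3 := congrFun hab i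
        simp only at h3
        have h4 := add_left_cancel h3
        exact mul_left_cancel₀ hδ'0 h4
      rw [← himg]
      apply Set.ncard_lt_ncard _ (CC_finite k s)
      rw [Set.ssubset_iff_of_subset]
      · refine ⟨e, ⟨hesupp, w0, hw0, hw0e⟩, ?_⟩
        rintro ⟨e1, he1, heq⟩
        obtain ⟨i, _, hi⟩ := CC_ne_zero hN he1
        have h3 := congrFun heq i
        simp only at h3
        have h4 : δ' * e1 i = 0 := by linear_combination h3
        rcases mul_eq_zero.mp h4 with h5 | h5
        · exact hδ'0 h5
        · exact hi h5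
      · rintro _ ⟨e1, he1, rfl⟩
        exact hinj e1 he1
    rw [hcard] at hlt
    exact ih _ hlt w _ hwv hdir hzs rfl
  obtain ⟨s, δ, hs, hδ, hsδ⟩ := special_exists hk v h0
  exact key _ s δ hs hδ hsδ rfl

end StepE

end Pool.Agent.TH76.BinPart
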