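import Mathlib
import Pool.Agent.TH76.BinPart.Descent

/-!
# The infinite sequence of extensions
-/

namespace Pool.Agent.TH76.BinPart

open Finset

set_option linter.unusedSectionVars false

section Stages
variable {F : Type*} [Field F]

/-- a good stage -/
def Stage (k : ℕ) (v : ℕ → ℕ → F) : Prop := Min k v ∧ Nondeg k v ∧ Om (v 0)

/-- the link between consecutive stages -/
def Link (n : ℕ) (v v' : ℕ → ℕ → F) (δ : ℕ → F) : Prop :=
  ∃ (s : ℕ → ℕ → F), Lim (n+1) v s ∧ (∃ i, i < n+1 ∧ δ i ≠ 0) ∧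
    Lim (n+1) v (fun i j => s i j + δ i) ∧ Lim (n+2) (ext (n+1) s) v'

/-- good forms at stage `n` -/
def Good (V : ℕ → ℕ → ℕ → F) (n : ℕ) : Set (ℕ → F) :=
  {c | (∀ i, n < i → c i = 0) ∧ Om (dot (n+1) c (V n))}

theorem good_step1 {V : ℕ → ℕ → ℕ → F} {n : ℕ} {δ : ℕ → F} (hl : Link n (V n) (V (n+1)) δ)
    {c : ℕ → F} (hc : c ∈ Good V n) : c ∈ Good V (n+1) := by
  obtain ⟨s, hs, _, _, hw⟩ := hl
  obtain ⟨h1, h2⟩ := hc
  refine ⟨fun i hi => h1 i (by omega), ?_⟩
  have h3 : Lim (n+1) (V n) (V (n+1)) := hs.trans (ext_lim_restrict hw)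
  have h4 := h2.lim (h3.dot c)
  have h5 : dot (n+1+1) c (V (n+1)) = dot (n+1) c (V (n+1)) := by
    funext j
    simp only [dot]
    rw [Finset.sum_range_succ _ (n+1), h1 (n+1) (by omega), zero_mul, add_zero]
  rw [h5]
  exact h4

theorem good_step2 {V : ℕ → ℕ → ℕ → F} {n : ℕ} {δ : ℕ → F} (hl : Link n (V n) (V (n+1)) δ)
    {c : ℕ → F} (hc : c ∈ Good V n) :
    (fun i => c i + (∑ l ∈ range (n+1), c l * δ l) * (Pi.single (n+1) (1:F) : ℕ → F) i)
      ∈ Good V (n+1) := by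
  obtain ⟨s, hs, _, hsδ, hw⟩ := hl
  obtain ⟨h1, h2⟩ := hc
  set κ : F := ∑ l ∈ range (n+1), c l * δ l with hκ
  refine ⟨?_, ?_⟩
  · intro i hi
    simp only
    rw [h1 i (by omega), Pi.single_eq_of_ne (by omega)]
    simp
  · have h4 := h2.lim (hsδ.dot c)
    have h5 := hw.dot (fun i => c i + κ * (Pi.single (n+1) (1:F) : ℕ → F) i)
    refine Om.lim ?_ h5
    have h6 : dot (n+2) (fun i => c i + κ * (Pi.single (n+1) (1:F) : ℕ → F) i) (ext (n+1) s)
        = dot (n+1) c (fun i j => s i j + δ i) := by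
      funext j
      simp only [dot]
      rw [Finset.sum_range_succ]
      have e1 : ∑ x ∈ range (n+1), (c x + κ * (Pi.single (n+1) (1:F) : ℕ → F) x) * ext (n+1) s x j
          = ∑ x ∈ range (n+1), c x * s x j := by
        apply Finset.sum_congr rfl
        intro x hx
        have hx' := Finset.mem_range.mp hx
        rw [Pi.single_eq_of_ne (by omega)]
        simp only [ext]
        rw [if_neg (by omega)]
        ring
      rw [e1, h1 (n+1) (by omega), Pi.single_eq_same]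
      simp only [ext, if_true, hκ]
      rw [show ∑ x ∈ range (n+1), c x * (s x j + δ x)
        = ∑ x ∈ range (n+1), c x * s x j + ∑ x ∈ range (n+1), c x * δ x by
          rw [← Finset.sum_add_distrib]
          exact Finset.sum_congr rfl (fun x _ => by ring)]
      ring
    rw [h6]
    exact h4

theorem good_single {N : ℕ} (hN : Hyp F N) {V : ℕ → ℕ → ℕ → F} {n : ℕ} {δ : ℕ → F}
    (hl : Link n (V n) (V (n+1)) δ) : (Pi.single (n+1) (1:F) : ℕ → F) ∈ Good V (n+1) := by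
  obtain ⟨s, hs, _, hsδ, hw⟩ := hl
  refine ⟨fun i hi => Pi.single_eq_of_ne (by omega) _, ?_⟩
  have h1 : dot (n+1+1) (Pi.single (n+1) (1:F) : ℕ → F) (V (n+1)) = V (n+1) (n+1) := by
    funext j
    simp only [dot]
    rw [Finset.sum_range_succ, Pi.single_eq_same, one_mul]
    rw [Finset.sum_eq_zero, zero_add]
    intro x hx
    have hx' := Finset.mem_range.mp hx
    rw [Pi.single_eq_of_ne (by omega), zero_mul]
  rw [h1]
  apply hN.om
  have h2 := hw.coord (n+1) (by omega)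
  have h3 : ext (n+1) s (n+1) = fun _ => (1:F) := by funext j; simp [ext]
  rw [h3] at h2
  exact h2

theorem good_single_zero {V : ℕ → ℕ → ℕ → F} (h : Om (V 0 0)) :
    (Pi.single 0 (1:F) : ℕ → F) ∈ Good V 0 := by
  refine ⟨fun i hi => Pi.single_eq_of_ne (by omega) _, ?_⟩
  have h1 : dot (0+1) (Pi.single 0 (1:F) : ℕ → F) (V 0) = V 0 0 := by
    funext j
    simp [dot]
  rw [h1]
  exact h

end Stages

section Exists
variable {F : Type*} [Field F] [Finite F]

theorem exists_tower (h2 : (2:F) ≠ 0) (hsurj : ∀ x : F, ∃ n : ℕ, (n:F) = x) {N : ℕ}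
    (hN : Hyp F N) : ∃ (V : ℕ → ℕ → ℕ → F) (δ : ℕ → ℕ → F), (∀ n, Stage (n+1) (V n)) ∧
      ∀ n, Link n (V n) (V (n+1)) (δ n) := by
  classical
  have hbase : ∃ v : ℕ → ℕ → F, Stage 1 v := by
    obtain ⟨w, hw, hmin⟩ := exists_min 1 (fun _ _ => (1:F))
    have hom : Om (w 0) := hN.om (hw.coord 0 (by norm_num))
    refine ⟨w, hmin, ?_, hom⟩
    rintro e ⟨i, hi, hei⟩ hdot
    have hi0 : i = 0 := by omega
    subst hi0
    apply hom 0 2 (by norm_num)
    have : w 0 = fun _ => 0 := by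
      funext j
      have := congrFun hdot j
      simp only [dot, Finset.sum_range_one] at this
      rcases mul_eq_zero.mp this with h | h
      · exact absurd h hei
      · exact h
    rw [this, X_zero_fun]
  have hstep : ∀ (n : ℕ) (p : {v : ℕ → ℕ → F // Stage (n+1) v}),
      ∃ (q : {v : ℕ → ℕ → F // Stage (n+1+1) v}) (δ : ℕ → F), Link n p.1 q.1 δ := by
    rintro n ⟨v, hmin, hnd, hom⟩
    obtain ⟨s, δ, w, hs, hδ, hsδ, hw, hwmin, hwnd⟩ :=
      stepE h2 hsurj hN (k := n+1) (by omega) hmin hnd hom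
    have hvw : Lim (n+1) v w := hs.trans (ext_lim_restrict hw)
    refine ⟨⟨w, hwmin, hwnd, hom.lim (hvw.coord 0 (by omega))⟩, δ, s, hs, hδ, hsδ, hw⟩
  obtain ⟨v0, hv0⟩ := hbase
  choose q δ hq using hstep
  let P : (n : ℕ) → {v : ℕ → ℕ → F // Stage (n+1) v} :=
    fun n => Nat.rec ⟨v0, hv0⟩ (fun n p => q n p) n
  refine ⟨fun n => (P n).1, fun n => δ n (P n), fun n => (P n).2, ?_⟩
  intro n
  exact hq n (P n)

end Exists

end Pool.Agent.TH76.BinPart
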