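import Mathlib
import Pool.Agent.TH76.BinPart.Stages
import Pool.Agent.TH76.BinPart.Comb
import Pool.Agent.TH76.BinPart.Density

/-!
# Zeros of `a(n) mod p` at positions `≡ 2 mod 4`
-/

namespace Pool.Agent.TH76.BinPart

open Finset

set_option linter.unusedSectionVars false

section Final

open scoped Pointwise in
theorem subset_sums_card {p : ℕ} (hp : p.Prime) (g : ℕ → ZMod p) (B : Finset ℕ)
    (hg : ∀ a ∈ B, g a ≠ 0) :
    min p (B.card + 1) ≤ (B.powerset.image (fun S => ∑ a ∈ S, g a)).card := by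
  classical
  induction B using Finset.induction_on with
  | empty => simp
  | insert a B ha ih =>
    have ih' := ih (fun b hb => hg b (Finset.mem_insert_of_mem hb))
    have hga := hg a (Finset.mem_insert_self a B)
    have hcd := ZMod.cauchy_davenport hp (s := B.powerset.image (fun S => ∑ a ∈ S, g a))
      (t := {0, g a}) (Finset.Nonempty.image ⟨∅, by simp⟩ _) (by simp)
    have h2 : ({0, g a} : Finset (ZMod p)).card = 2 := Finset.card_pair (Ne.symm hga)
    have hsub : (B.powerset.image (fun S => ∑ a ∈ S, g a)) + ({0, g a} : Finset (ZMod p)) ⊆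
        ((insert a B).powerset.image (fun S => ∑ a ∈ S, g a)) := by
      intro z hz
      rw [Finset.mem_add] at hz
      obtain ⟨y, hy, w, hw, rfl⟩ := hz
      rw [Finset.mem_image] at hy
      obtain ⟨S, hS, rfl⟩ := hy
      rw [Finset.mem_powerset] at hS
      rw [Finset.mem_insert, Finset.mem_singleton] at hw
      rw [Finset.mem_image]
      rcases hw with rfl | rfl
      · refine ⟨S, ?_, by simp⟩
        rw [Finset.mem_powerset]
        exact hS.trans (Finset.subset_insert a B)
      · refine ⟨insert a S, ?_, ?_⟩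
        · rw [Finset.mem_powerset]
          exact Finset.insert_subset_insert a hS
        · rw [Finset.sum_insert (fun h => ha (hS h))]
          ring
    have h3 := Finset.card_le_card hsub
    rw [h2] at hcd
    rw [Finset.card_insert_of_notMem ha]
    omega

theorem subset_sums {p : ℕ} (hp : p.Prime) (g : ℕ → ZMod p) (B : Finset ℕ)
    (hg : ∀ a ∈ B, g a ≠ 0) (hB : p - 1 ≤ B.card) (x : ZMod p) :
    ∃ S, S ⊆ B ∧ ∑ a ∈ S, g a = x := by
  classical
  have : NeZero p := ⟨hp.ne_zero⟩
  have h1 := subset_sums_card hp g B hg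
  have h2 : min p (B.card + 1) = p := by
    have := hp.pos
    omega
  rw [h2] at h1
  have h3 : (B.powerset.image (fun S => ∑ a ∈ S, g a)) = Finset.univ := by
    apply Finset.eq_univ_of_card
    apply le_antisymm
    · exact Finset.card_le_univ _
    · rw [ZMod.card]; exact h1
  have h4 : x ∈ (B.powerset.image (fun S => ∑ a ∈ S, g a)) := by rw [h3]; exact Finset.mem_univ x
  rw [Finset.mem_image] at h4
  obtain ⟨S, hS, hx⟩ := h4
  exact ⟨S, Finset.mem_powerset.mp hS, hx⟩

theorem nondeg_not_lim {F : Type*} [Field F] [Finite F] {k : ℕ} {v : ℕ → ℕ → F} (hmin : Min k v)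
    (hnd : Nondeg k v) (e : ℕ → F) (he : ∃ i, i < k ∧ e i ≠ 0) :
    ¬ Lim1 (dot k e v) (fun _ => 0) := by
  intro h
  rw [lim1_iff] at h
  obtain ⟨t, ht, hQ⟩ := lim_exists k v (fun K w => ∀ j, j ≤ K → dot k e w j = 0) (by
    intro K w w' hww' hw j hj
    rw [← hw j hj]
    unfold dot
    exact Finset.sum_congr rfl
      (fun l hl => by rw [hww' l (Finset.mem_range.mp hl) j hj])) (by
    intro K w hw j hj
    exact hw j (by omega)) (by
    intro K
    obtain ⟨m, hm, h1⟩ := h K
    refine ⟨m, hm, ?_⟩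
    intro j hj
    rw [← h1 j hj, X_dot]
    rfl)
  apply (hnd.lim hmin ht) e he
  funext j
  exact hQ j j le_rfl

theorem sum_form {F : Type*} [Field F] (n m : ℕ) (x : ℕ → F) (c : ℕ → F) (φ : ℕ → ℕ) (Y : ℕ → F)
    (hφ : ∀ a, a < m → φ a < n) :
    ∑ i ∈ range n, (x i + ∑ a ∈ range m, c a * ee F (φ a) i) * Y i
      = ∑ i ∈ range n, x i * Y i + ∑ a ∈ range m, c a * Y (φ a) := by
  have h1 : ∀ i ∈ range n, (x i + ∑ a ∈ range m, c a * ee F (φ a) i) * Y i
      = x i * Y i + ∑ a ∈ range m, c a * (ee F (φ a) i * Y i) := by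
    intro i _
    rw [add_mul, Finset.sum_mul]
    congr 1
    exact Finset.sum_congr rfl (fun a _ => by ring)
  rw [Finset.sum_congr rfl h1, Finset.sum_add_distrib]
  congr 1
  rw [Finset.sum_comm]
  apply Finset.sum_congr rfl
  intro a ha
  rw [← Finset.mul_sum, sum_ee n (φ a) Y (hφ a (Finset.mem_range.mp ha))]

theorem exists_zero {p : ℕ} (hp : p.Prime) (hp2 : p ≠ 2) (N : ℕ) :
    haveI : Fact p.Prime := ⟨hp⟩
    ∃ n, N ≤ n ∧ n % 4 = 2 ∧ aa (ZMod p) n = 0 := by
  classical
  have : Fact p.Prime := ⟨hp⟩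
  by_contra hcon
  have hN : Hyp (ZMod p) N := by
    intro n h1 h2 h3
    exact hcon ⟨n, h1, h2, h3⟩
  have hp3 : 3 ≤ p := by
    have := hp.two_le
    omega
  have h2 : (2 : ZMod p) ≠ 0 := by
    intro h
    have h3 : ((2:ℕ) : ZMod p) = 0 := by exact_mod_cast h
    rw [ZMod.natCast_eq_zero_iff] at h3
    exact hp2 ((Nat.prime_dvd_prime_iff_eq hp Nat.prime_two).mp h3)
  have hsurj : ∀ x : ZMod p, ∃ n : ℕ, (n : ZMod p) = x := by
    intro x
    exact ⟨x.val, ZMod.natCast_zmod_val x⟩
  obtain ⟨V, δ, hS, hL⟩ := exists_tower h2 hsurj hN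
  have hcomb : CombHyp (Good V) (fun k => δ (k-1)) := by
    refine ⟨?_, ?_, ?_, ?_, ?_⟩
    · intro n c hc i hi
      exact hc.1 i hi
    · intro n c hc
      exact good_step1 (hL n) hc
    · intro n c hc
      exact good_step2 (hL n) hc
    · intro n
      cases n with
      | zero => exact good_single_zero (hS 0).2.2
      | succ n => exact good_single hN (hL n)
    · intro k hk
      obtain ⟨s, _, ⟨i, hi, hne⟩, _, _⟩ := hL (k-1)
      exact ⟨i, by omega, hne⟩
  -- J
  obtain ⟨J, hJ, hJN⟩ : ∃ J, 4 ≤ J ∧ N + 6 ≤ 2^J := by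
    refine ⟨N + 6, by omega, Nat.lt_two_pow_self.le⟩
  set M : ℕ := 2^J * (p-1) with hM
  have hMp : p - 1 ≤ M := Nat.le_mul_of_pos_left _ (by positivity)
  rcases comb hcomb (8*M) with ⟨n, y, hy⟩ | ⟨n, x, f, τ, ρ, hf, hτ, hρ, hfn, hgood⟩
  · -- option A
    obtain ⟨a, b, hab, hval⟩ := Fintype.exists_ne_map_eq_of_card_lt
      (fun (a : Fin (8*M+1)) => ∑ i ∈ range (n+1), y a.1 i * X (V n i) 0 2) (by
        rw [ZMod.card, Fintype.card_fin]; omega)
    have main : ∀ a b : ℕ, a < b → b ≤ 8*M →
        ∑ i ∈ range (n+1), y a i * X (V n i) 0 2 = ∑ i ∈ range (n+1), y b i * X (V n i) 0 2 →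
        False := by
      intro a b hab hb hval
      obtain ⟨t, _, _, hom⟩ := hy a b hab hb
      apply hom 0 2 (by norm_num)
      rw [X_dot]
      have : ∀ i ∈ range (n+1), t * (y b i - y a i) * X (V n i) 0 2
          = t * (y b i * X (V n i) 0 2) - t * (y a i * X (V n i) 0 2) := by
        intro i _; ring
      rw [Finset.sum_congr rfl this, Finset.sum_sub_distrib, ← Finset.mul_sum, ← Finset.mul_sum,
        hval, sub_self]
    have hne : a.1 ≠ b.1 := fun h => hab (Fin.ext h)
    have ha := a.2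
    have hb := b.2
    rcases lt_or_gt_of_ne hne with h | h
    · exact main a b h (by omega) hval
    · exact main b a h (by omega) hval.symm
  · -- option B
    set m := 8*M with hm
    have hfle : ∀ j, j ≤ 2*m → f j < n+1 := by
      intro j hj
      have := hf.monotone hj
      omega
    set D : ℕ → ℕ → ZMod p := fun a => dot (n+1)
      (fun i => τ*ρ^a*(ee (ZMod p) (f (2*a+1)) i - ee (ZMod p) (f (2*a)) i)) (V n) with hD
    have hDX : ∀ a, a < m → ∀ u, X (D a) 0 u
        = τ*ρ^a*(X (V n (f (2*a+1))) 0 u - X (V n (f (2*a))) 0 u) := by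
      intro a ha u
      rw [hD]
      simp only
      rw [X_dot]
      have : ∀ i ∈ range (n+1),
          τ*ρ^a*(ee (ZMod p) (f (2*a+1)) i - ee (ZMod p) (f (2*a)) i) * X (V n i) 0 u
          = τ*ρ^a*(ee (ZMod p) (f (2*a+1)) i * X (V n i) 0 u)
            - τ*ρ^a*(ee (ZMod p) (f (2*a)) i * X (V n i) 0 u) := by
        intro i _; ring
      rw [Finset.sum_congr rfl this, Finset.sum_sub_distrib, ← Finset.mul_sum, ← Finset.mul_sum,
        sum_ee _ _ (fun i => X (V n i) 0 u) (hfle _ (by omega)),
        sum_ee _ _ (fun i => X (V n i) 0 u) (hfle _ (by omega))]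
      ring
    have hDlim : ∀ a, a < m → ¬ Lim1 (D a) (fun _ => 0) := by
      intro a ha
      apply nondeg_not_lim (hS n).1 (hS n).2.1
      refine ⟨f (2*a+1), hfle _ (by omega), ?_⟩
      have hne : f (2*a+1) ≠ f (2*a) := (hf (by omega : 2*a < 2*a+1)).ne'
      simp only [ee, Pi.single_eq_same, Pi.single_eq_of_ne hne, sub_zero, mul_one]
      exact mul_ne_zero hτ (pow_ne_zero _ hρ)
    have hRex : ∀ a, ∃ R, a < m → ∀ U, U ≤ 4 * ((range U).filter (fun u => GG J (D a) u)).card + R := by
      intro a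
      by_cases ha : a < m
      · obtain ⟨R, hR⟩ := density h2 hJ hJN hN (D a) (hDlim a ha)
        refine ⟨R, fun _ U => ?_⟩
        convert hR U
      · exact ⟨0, fun h => absurd h ha⟩
    choose R hR using hRex
    set Rm := (range m).sup R with hRm
    set U := 2*Rm+1 with hU
    have hsum : m * U ≤ 4 * ∑ a ∈ range m, ((range U).filter (fun u => GG J (D a) u)).card + m*Rm := by
      have h1 : ∑ a ∈ range m, U ≤ ∑ a ∈ range m,
          (4 * ((range U).filter (fun u => GG J (D a) u)).card + Rm) := by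
        apply Finset.sum_le_sum
        intro a ha
        have h3 := hR a (Finset.mem_range.mp ha) U
        have h4 : R a ≤ Rm := Finset.le_sup ha
        omega
      rw [Finset.sum_const, Finset.card_range, Finset.sum_add_distrib, Finset.sum_const,
        Finset.card_range, ← Finset.mul_sum] at h1
      simpa using h1
    have hdouble : ∑ a ∈ range m, ((range U).filter (fun u => GG J (D a) u)).card
        = ∑ u ∈ range U, ((range m).filter (fun a => GG J (D a) u)).card := by
      simp only [Finset.card_filter]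
      exact Finset.sum_comm
    obtain ⟨u, huU, hu⟩ : ∃ u, u ∈ range U ∧ M ≤ ((range m).filter (fun a => GG J (D a) u)).card := by
      by_contra hno
      push Not at hno
      have h1 : ∑ u ∈ range U, (((range m).filter (fun a => GG J (D a) u)).card + 1)
          ≤ ∑ u ∈ range U, M := by
        apply Finset.sum_le_sum
        intro u hu
        exact hno u hu
      rw [Finset.sum_add_distrib, Finset.sum_const, Finset.sum_const, Finset.card_range,
        ← hdouble] at h1
      simp only [smul_eq_mul, mul_one] at h1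
      set Sg := ∑ a ∈ range m, ((range U).filter (fun u => GG J (D a) u)).card with hSg
      have hMpos : 1 ≤ M := by omega
      rw [hm] at hsum
      have e1 : 8*M*U ≤ 4*Sg + 8*M*Rm := hsum
      have e2 : Sg + U ≤ U*M := h1
      rw [hU] at e1 e2
      nlinarith
    set A := (range m).filter (fun a => GG J (D a) u) with hA
    have hAex : ∀ a, ∃ t, a ∈ A → (t < 2^J ∧ t % 4 = 2 ∧ X (D a) 0 (2^J*u+t) ≠ 0) := by
      intro a
      by_cases ha : a ∈ A
      · obtain ⟨t, ht⟩ := (Finset.mem_filter.mp ha).2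
        exact ⟨t, fun _ => ht⟩
      · exact ⟨0, fun h => absurd h ha⟩
    choose tt htt using hAex
    obtain ⟨t, htr, htcard⟩ := Finset.exists_le_card_fiber_of_mul_le_card_of_maps_to
      (s := A) (t := range (2^J)) (f := tt) (n := p-1)
      (fun a ha => Finset.mem_range.mpr (htt a ha).1) ⟨0, by simp⟩ (by
        rw [Finset.card_range]; exact hu)
    set B := A.filter (fun a => tt a = t) with hB
    have hBA : ∀ a ∈ B, a ∈ A := fun a ha => (Finset.mem_filter.mp ha).1
    have hBm : ∀ a ∈ B, a < m := fun a ha =>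
      Finset.mem_range.mp (Finset.mem_filter.mp (hBA a ha)).1
    have hBt : ∀ a ∈ B, tt a = t := fun a ha => (Finset.mem_filter.mp ha).2
    have hBne : B.Nonempty := by
      rw [← Finset.card_pos]; omega
    have ht4 : t % 4 = 2 := by
      obtain ⟨a, ha⟩ := hBne
      rw [← hBt a ha]
      exact (htt a (hBA a ha)).2.1
    set n0 := 2^J*u+t with hn0
    have hn04 : n0 % 4 = 2 := by
      obtain ⟨q, hq⟩ : ∃ q, 2^J = 4*q := by
        refine ⟨2^(J-2), ?_⟩
        rw [show (4:ℕ) = 2^2 by norm_num, ← pow_add]; congr 1; omega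
      rw [hn0, hq, mul_assoc]; omega
    have hg : ∀ a ∈ B, X (D a) 0 n0 ≠ 0 := by
      intro a ha
      have := (htt a (hBA a ha)).2.2
      rw [hBt a ha] at this
      exact this
    set base : ZMod p := ∑ i ∈ range (n+1), x i * X (V n i) 0 n0
      + ∑ a ∈ range m, τ*ρ^a * X (V n (f (2*a))) 0 n0 with hbase
    obtain ⟨S, hSB, hSsum⟩ := subset_sums hp (fun a => X (D a) 0 n0) B hg htcard (-base)
    set κ : ℕ → ℕ := fun a => if a ∈ S then 2*a+1 else 2*a with hκ
    have hκ' : ∀ a, κ a = 2*a ∨ κ a = 2*a+1 := by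
      intro a
      rw [hκ]
      by_cases ha : a ∈ S
      · right; simp [ha]
      · left; simp [ha]
    have hom := (hgood κ hκ').2 0 n0 hn04
    apply hom
    rw [X_dot, sum_form (n+1) m x (fun a => τ*ρ^a) (fun a => f (κ a)) (fun i => X (V n i) 0 n0) (by
      intro a ha
      apply hfle
      rcases hκ' a with h | h <;> omega)]
    have hsplit : ∑ a ∈ range m, τ*ρ^a * X (V n (f (κ a))) 0 n0
        = ∑ a ∈ range m, τ*ρ^a * X (V n (f (2*a))) 0 n0 + ∑ a ∈ S, X (D a) 0 n0 := by
      have hSm : S ⊆ range m := fun a ha => Finset.mem_range.mpr (hBm a (hSB ha))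
      have h5 : ∑ a ∈ S, X (D a) 0 n0 = ∑ a ∈ range m, if a ∈ S then X (D a) 0 n0 else 0 := by
        rw [← Finset.sum_filter]
        congr 1
        ext a
        simp only [Finset.mem_filter]
        exact ⟨fun h => ⟨hSm h, h⟩, fun h => h.2⟩
      rw [h5, ← Finset.sum_add_distrib]
      apply Finset.sum_congr rfl
      intro a ha
      by_cases haS : a ∈ S
      · simp only [hκ, haS, if_true]
        rw [hDX a (Finset.mem_range.mp ha)]
        ring
      · simp only [hκ, haS, if_false, add_zero]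
    rw [hsplit, hSsum, hbase]
    ring

end Final

end Pool.Agent.TH76.BinPart
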